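import Pool.Agent.H361R2.PP.Iface
import Pool.Agent.TH779.Ord.Fn

/-! The abstract probabilistic step: many classes of short clusters. -/

set_option autoImplicit false

open Finset

namespace Pool.Agent.E8helper24.PG

open Pool.Agent.H361R2.PP Pool.Agent.TH779.Ord

theorem fn_le_one {lam : ℝ} (hl : 1 ≤ lam) (m : ℕ) : fn lam m ≤ 1 := by
  unfold fn
  rcases Nat.lt_or_ge m 2 with h | h
  · have h2 : m = 0 ∨ m = 1 := by omega
    rcases h2 with rfl | rfl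
    · norm_num
    · norm_num
  · have h1 : (2 : ℝ) ≤ m := by exact_mod_cast h
    have h2 : (m : ℝ) ≤ m * (m - 1) := by nlinarith
    have h3 : 0 ≤ (m : ℝ) * (m - 1) := by nlinarith
    have h4 : 1 * ((m : ℝ) * (m - 1)) ≤ lam * (m * (m - 1)) :=
      mul_le_mul_of_nonneg_right hl h3
    linarith

theorem nn (x : ℕ) : (0 : ℝ) ≤ x * ((x : ℝ) - 1) := by
  rcases Nat.eq_zero_or_pos x with h | h
  · rw [h]; norm_num
  · have : (1 : ℝ) ≤ x := by exact_mod_cast h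
    nlinarith

theorem pv3 (hCs : Cs) (k T : ℕ) (hT : 1 ≤ T) (lam : ℝ) (hlam : 1 ≤ lam) (S : Finset ℕ) (V : ℕ → ℝ)
    (N : Fin k → ℕ → ℕ) (NG : Fin T → ℕ → ℕ) (Q : ℕ → ℕ) (A μ μ1 s q r C κ ρ : ℝ) (hA : 0 < A)
    (h1 : ∑ n ∈ S, V n ^ 2 ≤ (1 + s) * A)
    (h2 : ∀ g, (1 - s) * μ * A ≤ ∑ n ∈ S, V n ^ 2 * NG g n)
    (h3 : ∀ g, ∑ n ∈ S, V n ^ 2 * (NG g n * ((NG g n : ℝ) - 1)) ≤ q * μ ^ 2 * A)
    (h3i : ∀ i, ∑ n ∈ S, V n ^ 2 * (N i n * ((N i n : ℝ) - 1)) ≤ q * μ1 ^ 2 * A)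
    (h4 : ∑ n ∈ S, V n ^ 2 * Q n ≤ r * A)
    (h5 : ∑ n ∈ S, V n ^ 4 ≤ C) (hC : 0 < C) (hκ : 0 ≤ κ) (hρ : 0 ≤ ρ)
    (hfin : κ + ρ * (1 + s) + r + k * (q * μ1 ^ 2) ≤ (1 - s) * μ - lam * (q * μ ^ 2)) :
    (κ * A) ^ 2 / C ≤
      ((S.filter (fun n => ρ * T ≤ ∑ g, fn lam (NG g n) ∧ Q n = 0 ∧ ∀ i, N i n ≤ 1)).card : ℝ) := by
  have hT0 : (0 : ℝ) < T := by exact_mod_cast hT
  apply hCs S V (fun n => ρ * T ≤ ∑ g, fn lam (NG g n) ∧ Q n = 0 ∧ ∀ i, N i n ≤ 1) _ C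
    (by positivity) hC _ h5
  -- the functional
  have hpt : ∀ n ∈ S, V n ^ 2 * ∑ g, fn lam (NG g n) ≤
      T * (if (ρ * T ≤ ∑ g, fn lam (NG g n) ∧ Q n = 0 ∧ ∀ i, N i n ≤ 1) then V n ^ 2 else 0) +
      ρ * T * V n ^ 2 + T * (V n ^ 2 * Q n + ∑ i, V n ^ 2 * (N i n * ((N i n : ℝ) - 1))) := by
    intro n _
    have hΦ : ∑ g, fn lam (NG g n) ≤ T := by
      calc ∑ g, fn lam (NG g n) ≤ ∑ _g : Fin T, (1 : ℝ) := sum_le_sum fun g _ => fn_le_one hlam _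
        _ = T := by rw [sum_const, card_univ, Fintype.card_fin, nsmul_eq_mul, mul_one]
    have hsum0 : 0 ≤ ∑ i, V n ^ 2 * (N i n * ((N i n : ℝ) - 1)) :=
      sum_nonneg fun i _ => mul_nonneg (sq_nonneg _) (nn _)
    have hQ0 : 0 ≤ V n ^ 2 * (Q n : ℝ) := mul_nonneg (sq_nonneg _) (Nat.cast_nonneg _)
    have hV0 : 0 ≤ V n ^ 2 := sq_nonneg _
    have hV1 : V n ^ 2 * ∑ g, fn lam (NG g n) ≤ V n ^ 2 * T := mul_le_mul_of_nonneg_left hΦ hV0
    have hρV : 0 ≤ ρ * T * V n ^ 2 := by positivity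
    split_ifs with ha
    · have : 0 ≤ T * (V n ^ 2 * Q n + ∑ i, V n ^ 2 * (N i n * ((N i n : ℝ) - 1))) := by positivity
      linarith
    · by_cases hlt : ρ * T ≤ ∑ g, fn lam (NG g n)
      · have h6 : V n ^ 2 ≤ V n ^ 2 * Q n + ∑ i, V n ^ 2 * (N i n * ((N i n : ℝ) - 1)) := by
          by_cases hQ : Q n = 0
          · have : ∃ i, ¬ N i n ≤ 1 := by
              by_contra hcon
              push Not at hcon
              exact ha ⟨hlt, hQ, hcon⟩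
            obtain ⟨i, hi⟩ := this
            push Not at hi
            have h6 : (2 : ℝ) ≤ N i n := by exact_mod_cast hi
            have h7 : V n ^ 2 * 1 ≤ V n ^ 2 * (N i n * ((N i n : ℝ) - 1)) := by
              apply mul_le_mul_of_nonneg_left _ (sq_nonneg _)
              nlinarith
            have h8 := single_le_sum (f := fun i => V n ^ 2 * (N i n * ((N i n : ℝ) - 1)))
              (fun i _ => mul_nonneg (sq_nonneg _) (nn _)) (mem_univ i)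
            linarith
          · have h6 : (1 : ℝ) ≤ Q n := by exact_mod_cast Nat.one_le_iff_ne_zero.2 hQ
            have h7 : V n ^ 2 * 1 ≤ V n ^ 2 * (Q n : ℝ) :=
              mul_le_mul_of_nonneg_left h6 (sq_nonneg _)
            linarith
        have h9 := mul_le_mul_of_nonneg_left h6 hT0.le
        linarith
      · have h6 : V n ^ 2 * ∑ g, fn lam (NG g n) ≤ V n ^ 2 * (ρ * T) :=
          mul_le_mul_of_nonneg_left (not_le.1 hlt).le hV0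
        have h7 : 0 ≤ T * (V n ^ 2 * Q n + ∑ i, V n ^ 2 * (N i n * ((N i n : ℝ) - 1))) := by
          positivity
        linarith
  have hsum := sum_le_sum hpt
  have e1 : ∑ n ∈ S, (T * (if (ρ * T ≤ ∑ g, fn lam (NG g n) ∧ Q n = 0 ∧ ∀ i, N i n ≤ 1)
        then V n ^ 2 else 0) +
      ρ * T * V n ^ 2 + T * (V n ^ 2 * Q n + ∑ i, V n ^ 2 * (N i n * ((N i n : ℝ) - 1)))) =
      T * (∑ n ∈ S.filter (fun n => ρ * T ≤ ∑ g, fn lam (NG g n) ∧ Q n = 0 ∧ ∀ i, N i n ≤ 1),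
        V n ^ 2) + ρ * T * ∑ n ∈ S, V n ^ 2 + T * (∑ n ∈ S, V n ^ 2 * Q n +
        ∑ i, ∑ n ∈ S, V n ^ 2 * (N i n * ((N i n : ℝ) - 1))) := by
    rw [sum_add_distrib, sum_add_distrib, ← mul_sum, ← mul_sum, ← mul_sum, sum_filter,
      sum_add_distrib, sum_comm (s := S) (t := univ)]
  rw [e1] at hsum
  have h9 : ∑ i, ∑ n ∈ S, V n ^ 2 * (N i n * ((N i n : ℝ) - 1)) ≤ k * (q * μ1 ^ 2 * A) := by
    calc ∑ i, ∑ n ∈ S, V n ^ 2 * (N i n * ((N i n : ℝ) - 1)) ≤ ∑ _i : Fin k, q * μ1 ^ 2 * A :=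
          sum_le_sum fun i _ => h3i i
      _ = _ := by rw [sum_const, card_univ, Fintype.card_fin, nsmul_eq_mul]
  have h10 : T * (((1 - s) * μ - lam * (q * μ ^ 2)) * A) ≤
      ∑ n ∈ S, V n ^ 2 * ∑ g, fn lam (NG g n) := by
    have e2 : ∑ n ∈ S, V n ^ 2 * ∑ g, fn lam (NG g n) =
        ∑ g, (∑ n ∈ S, V n ^ 2 * NG g n -
          lam * ∑ n ∈ S, V n ^ 2 * (NG g n * ((NG g n : ℝ) - 1))) := by
      simp only [mul_sum]
      rw [sum_comm]
      apply sum_congr rfl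
      intro g _
      rw [← sum_sub_distrib]
      apply sum_congr rfl
      intro n _
      unfold fn
      ring
    rw [e2]
    calc T * (((1 - s) * μ - lam * (q * μ ^ 2)) * A) =
        ∑ _g : Fin T, ((1 - s) * μ * A - lam * (q * μ ^ 2 * A)) := by
          rw [sum_const, card_univ, Fintype.card_fin, nsmul_eq_mul]; ring
      _ ≤ _ := by
          apply sum_le_sum
          intro g _
          have h6 := mul_le_mul_of_nonneg_left (h3 g) (by linarith : (0 : ℝ) ≤ lam)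
          have h7 := h2 g
          linarith
  have h11 := h10.trans hsum
  have h12 := mul_le_mul_of_nonneg_left h1 hρ
  have h13 : T * (((1 - s) * μ - lam * (q * μ ^ 2)) * A) ≤ T *
      ((∑ n ∈ S.filter (fun n => ρ * T ≤ ∑ g, fn lam (NG g n) ∧ Q n = 0 ∧ ∀ i, N i n ≤ 1),
        V n ^ 2) + ρ * ((1 + s) * A) + (r * A + k * (q * μ1 ^ 2 * A))) := by
    have h14 : T * (ρ * ∑ n ∈ S, V n ^ 2) ≤ T * (ρ * ((1 + s) * A)) :=
      mul_le_mul_of_nonneg_left h12 hT0.le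
    have h15 : T * (∑ n ∈ S, V n ^ 2 * Q n +
        ∑ i, ∑ n ∈ S, V n ^ 2 * (N i n * ((N i n : ℝ) - 1))) ≤
        T * (r * A + k * (q * μ1 ^ 2 * A)) :=
      mul_le_mul_of_nonneg_left (add_le_add h4 h9) hT0.le
    linarith
  have h16 := le_of_mul_le_mul_left h13 hT0
  have h17 := mul_le_mul_of_nonneg_right hfin hA.le
  linarith

end Pool.Agent.E8helper24.PG
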