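import Pool.Agent.H361R2.PP.Cls4
import Pool.Agent.E8helper24.PG.Pv

/-! Many classes of short clusters: the moments. -/

set_option autoImplicit false

open Finset

namespace Pool.Agent.E8helper24.PG

open Pool.Agent.H361R2.PP Pool.Agent.TH779.Ord
open Pool.Agent.H410R2.AC (wt GG cfg term WW pos Inj coef)

open Classical in
/-- the number of primes `n + a` with `a` in the cluster -/
noncomputable def cn (α ε Λ : ℝ) (X n : ℕ) : ℕ :=
  ((Icc 1 ⌊Λ * Real.log X⌋₊).filter (fun a => CL α ε (Real.log X) a ∧ (n + a).Prime)).card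

open Classical in
/-- the good integers: every cluster contains at most one prime, there is no further prime in the
window, and the functional `fn` of the numbers of the clusters with a prime in the classes is large -/
def GoodG {k T : ℕ} (lam : ℝ) (cl : Fin k → Fin T) (α : Fin k → ℝ) (ε Λ : ℝ) (X n : ℕ) : Prop :=
  (T : ℝ) / (40 * lam) ≤ ∑ g : Fin T, fn lam
      ((univ : Finset (Fin k)).filter (fun i => cl i = g ∧ 1 = cn (α i) ε Λ X n)).card ∧
    (∀ i, cn (α i) ε Λ X n ≤ 1) ∧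
    ∀ a ∈ Icc 1 ⌊Λ * Real.log X⌋₊, (n + a).Prime → ∃ i, CL (α i) ε (Real.log X) a

open Classical in
/-- the surviving shifts of the clusters of a class -/
noncomputable def UG {k T : ℕ} (X b N : ℕ) (cl : Fin k → Fin T) (α : Fin k → ℝ) (ε : ℝ)
    (g : Fin T) : Finset ℕ :=
  (univ.filter (fun i => cl i = g)).biUnion (fun i => AA X b N (α i) ε)

open Classical in
theorem disj_AA {k : ℕ} {X b N : ℕ} {α : Fin k → ℝ} {ε : ℝ} (hL : 0 < Real.log X)
    (hdis : ∀ i j, i ≠ j → α i + ε ≤ α j ∨ α j + ε ≤ α i) {i j : Fin k} (hij : i ≠ j) :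
    Disjoint (AA X b N (α i) ε) (AA X b N (α j) ε) := by
  rw [disjoint_left]
  intro a ha ha'
  unfold AA at ha ha'
  rw [mem_filter] at ha ha'
  rcases hdis i j hij with h1 | h1
  · have := mul_le_mul_of_nonneg_right h1 hL.le
    linarith [ha.2.2, ha'.2.1]
  · have := mul_le_mul_of_nonneg_right h1 hL.le
    linarith [ha.2.1, ha'.2.2]

open Classical in
theorem Np_UG {k T : ℕ} {X b N : ℕ} {cl : Fin k → Fin T} {α : Fin k → ℝ} {ε : ℝ}
    (hL : 0 < Real.log X) (hdis : ∀ i j, i ≠ j → α i + ε ≤ α j ∨ α j + ε ≤ α i) (g : Fin T) (n : ℕ) :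
    Np (UG X b N cl α ε g) n = ∑ i ∈ univ.filter (fun i => cl i = g), Np (AA X b N (α i) ε) n := by
  unfold Np UG
  rw [filter_biUnion, card_biUnion]
  intro i _ j _ hij
  exact (disj_AA hL hdis hij).mono (filter_subset _ _) (filter_subset _ _)

open Classical in
theorem goodG_of {k T : ℕ} (lam : ℝ) (cl : Fin k → Fin T) (α : Fin k → ℝ) (ε Λ : ℝ) {X b n : ℕ}
    (hX : HH X < X) (hL : 0 < Real.log X)
    (hdis : ∀ i j, i ≠ j → α i + ε ≤ α j ∨ α j + ε ≤ α i)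
    (hn : n ∈ SI X b)
    (h1 : (T : ℝ) / (40 * lam) ≤ ∑ g : Fin T, fn lam (Np (UG X b ⌊Λ * Real.log X⌋₊ cl α ε g) n))
    (h2 : Np (EE X b ⌊Λ * Real.log X⌋₊ α ε) n = 0)
    (h3 : ∀ i, Np (AA X b ⌊Λ * Real.log X⌋₊ (α i) ε) n ≤ 1) : GoodG lam cl α ε Λ X n := by
  have hAA : ∀ i, (Icc 1 ⌊Λ * Real.log X⌋₊).filter (fun a =>
        CL (α i) ε (Real.log X) a ∧ (n + a).Prime) =
      (AA X b ⌊Λ * Real.log X⌋₊ (α i) ε).filter (fun a => (n + a).Prime) := by
    intro i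
    ext a
    unfold AA CL
    simp only [mem_filter, mem_Icc, mem_BB]
    constructor
    · rintro ⟨⟨h4, h5⟩, h6, h7⟩
      have := prime_BB hX hn h4 h5 h7
      rw [mem_BB] at this
      exact ⟨⟨this, h6⟩, h7⟩
    · rintro ⟨⟨⟨h4, h5, _⟩, h6⟩, h7⟩
      exact ⟨⟨h4, h5⟩, h6, h7⟩
  have hcn : ∀ i, cn (α i) ε Λ X n = Np (AA X b ⌊Λ * Real.log X⌋₊ (α i) ε) n := by
    intro i
    unfold cn Np
    rw [hAA i]
  refine ⟨?_, ?_, ?_⟩
  · refine h1.trans (le_of_eq ?_)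
    refine sum_congr rfl fun g _ => ?_
    congr 1
    rw [Np_UG hL hdis, card_filter, sum_filter]
    refine sum_congr rfl fun i _ => ?_
    rw [hcn i]
    have := h3 i
    by_cases hg : cl i = g
    · rw [if_pos hg]
      rcases Nat.eq_zero_or_pos (Np (AA X b ⌊Λ * Real.log X⌋₊ (α i) ε) n) with h | h
      · rw [h, if_neg (by simp)]
      · have h4 : Np (AA X b ⌊Λ * Real.log X⌋₊ (α i) ε) n = 1 := by omega
        rw [h4, if_pos ⟨hg, rfl⟩]
    · rw [if_neg hg, if_neg (fun h => hg h.1)]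
  · intro i
    rw [hcn i]
    exact h3 i
  · intro a ha hp
    by_contra hcon
    rw [mem_Icc] at ha
    have h4 : a ∈ (EE X b ⌊Λ * Real.log X⌋₊ α ε).filter (fun a => (n + a).Prime) := by
      rw [mem_filter]
      refine ⟨?_, hp⟩
      unfold EE
      rw [mem_filter]
      exact ⟨prime_BB hX hn ha.1 ha.2 hp, hcon⟩
    unfold Np at h2
    rw [card_eq_zero] at h2
    rw [h2] at h4
    exact absurd h4 (notMem_empty a)

open Classical in
theorem cls3 (hCol : Col) (hCob : Cob) (hMni : Mni) (hCs : Cs)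
    {t : ℕ} {u : Fin t → ℝ} {c0 δ : ℝ} {X : ℕ} {Λ θ s C η c : ℝ} {b : ℕ}
    {β : Fin t → ℝ} {D : Dat t u c0 δ X} (h : Sit Λ θ s C η c b β D) (hX : 1 ≤ X)
    (hHX : HH X < X) (hL : 0 < Real.log X)
    (hθ0 : 0 < θ) (hθ : θ ≤ 1 / 32) (hC : 0 < C) (hΛ : 0 < Λ)
    (k T K : ℕ) (hT : 1 ≤ T) (hK : 1 ≤ K) (lam : ℝ) (hlam : 1 ≤ lam) (cl : Fin k → Fin T)
    (hcl : ∀ g, (univ.filter (fun i => cl i = g)).card = K) (α : Fin k → ℝ) (ε : ℝ) (hε : 0 < ε)
    (hdis : ∀ i j, i ≠ j → α i + ε ≤ α j ∨ α j + ε ≤ α i)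
    (hcf : ∀ a, D.cf a = if ∃ i, CL (α i) ε (Real.log X) a then c else -1)
    (hcA : ∀ i, |((AA X b ⌊Λ * Real.log X⌋₊ (α i) ε).card : ℝ) -
      ε * Real.log X * (Nat.totient (Wm X) / Wm X)| ≤
      s * (ε * Real.log X * (Nat.totient (Wm X) / Wm X)))
    (hcB : ((BB X b ⌊Λ * Real.log X⌋₊).card : ℝ) ≤
      (1 + s) * (Λ * Real.log X * (Nat.totient (Wm X) / Wm X)))
    (hpnt : |Pr X * Real.log X - X| ≤ s * X)
    (hVG : VV δ X / GG (S1 δ θ X) * (((Nat.totient (Wm X) : ℝ) / Wm X) *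
      ((1 / 4 - 3 * θ) * Real.log X)) ≤ 1)
    (s' μ κ : ℝ) (hs' : 7 * s ≤ s') (hs'1 : s' ≤ 1) (hμ : μ = ε * (1 + c) ^ 2) (hκ : 0 < κ)
    (hfin : κ + 1 / (40 * lam) * (1 + s') + 20 * Λ * s +
      k * ((1 + s) ^ 4 / (1 / 4 - 3 * θ) * μ ^ 2) ≤
      (1 - s') * (K * μ) - lam * ((1 + s) ^ 4 / (1 / 4 - 3 * θ) * (K * μ) ^ 2)) :
    (X : ℝ) / Wm X * (κ ^ 2 / C) ≤
      (((SI X b).filter (fun n => GoodG lam cl α ε Λ X n)).card : ℝ) := by
  set N := ⌊Λ * Real.log X⌋₊ with hN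
  set B := BB X b N with hB
  set M := ZZ D B (fun _ => 1) with hM
  set Ω := (X : ℝ) / Wm X with hΩ
  set Ω' := Pr X / Nat.totient (Wm X) with hΩ'
  set L := Real.log X with hLd
  set f := (Nat.totient (Wm X) : ℝ) / Wm X with hf
  set V : ℕ → ℝ := fun n => WW B (fun _ => 1) (xx D n) with hV
  have hs0 := h.s0
  have hs1 := h.s1
  have hc := h.c00
  have hK0 : (1 : ℝ) ≤ K := by exact_mod_cast hK
  have hW0 : (0 : ℝ) < Wm X := by exact_mod_cast Wm_pos X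
  have hφ0 : (0 : ℝ) < Nat.totient (Wm X) := by exact_mod_cast Nat.totient_pos.2 (Wm_pos X)
  have hX0 : (0 : ℝ) < X := by exact_mod_cast hX
  have hΩ0 : 0 < Ω := div_pos hX0 hW0
  have hΩ'0 : 0 ≤ Ω' := Om'_nonneg X
  have hf0 : 0 < f := div_pos hφ0 hW0
  have hM1 : 1 ≤ M := by
    rw [hM, ZZ_one]
    exact (hMni t B β (qq D) η h.η0 h.β0 h.β1 (fun τ a => qq_nonneg h.v0 τ a) h.hη).1
  have hM0 : 0 < M := by linarith
  have hLf : L * f * Ω' = Pr X * L / Wm X := by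
    rw [hf, hΩ']
    field_simp
  have hLf1 : L * f * Ω' ≤ (1 + s) * Ω := by
    rw [hLf, hΩ, ← mul_div_assoc]
    apply div_le_div_of_nonneg_right _ hW0.le
    have := (abs_le.1 hpnt).2
    linarith
  have hLf2 : (1 - s) * Ω ≤ L * f * Ω' := by
    rw [hLf, hΩ, ← mul_div_assoc]
    apply div_le_div_of_nonneg_right _ hW0.le
    have := (abs_le.1 hpnt).1
    linarith
  have hθ4 : 5 / 32 ≤ 1 / 4 - 3 * θ := by linarith
  set v := VV δ X / GG (S1 δ θ X) with hv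
  have hG1 : 1 ≤ GG (S1 δ θ X) := GG1_ge hX hθ
  have hv0 : 0 ≤ v := div_nonneg h.v0 (by linarith)
  set w4 := 1 / 4 - 3 * θ with hw4
  have hw40 : 0 < w4 := by linarith
  have hvL : v * (f * L) ≤ 1 / w4 := by
    rw [le_div_iff₀ hw40]
    calc v * (f * L) * w4 = v * (f * (w4 * L)) := by ring
      _ ≤ 1 := hVG
  have hμ0 : 0 < μ := by rw [hμ]; positivity
  have hcov : ∀ i, ∀ a ∈ AA X b N (α i) ε, a ∈ B ∧ D.cf a = c := by
    intro i a ha
    unfold AA at ha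
    rw [mem_filter] at ha
    refine ⟨ha.1, ?_⟩
    rw [hcf a, if_pos ⟨i, ha.2⟩]
  have hcovU : ∀ g, ∀ a ∈ UG X b N cl α ε g, a ∈ B ∧ D.cf a = c := by
    intro g a ha
    unfold UG at ha
    rw [mem_biUnion] at ha
    obtain ⟨i, -, hi⟩ := ha
    exact hcov i a hi
  -- cardinalities
  have hA1 : ∀ i, (1 - s) * (ε * L * f) ≤ ((AA X b N (α i) ε).card : ℝ) := by
    intro i
    have := (abs_le.1 (hcA i)).1
    linarith
  have hA2 : ∀ i, ((AA X b N (α i) ε).card : ℝ) ≤ (1 + s) * (ε * L * f) := by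
    intro i
    have := (abs_le.1 (hcA i)).2
    linarith
  have hcU : ∀ g, ((UG X b N cl α ε g).card : ℝ) =
      ∑ i ∈ univ.filter (fun i => cl i = g), ((AA X b N (α i) ε).card : ℝ) := by
    intro g
    unfold UG
    rw [card_biUnion]
    · push_cast
      rfl
    · intro i _ j _ hij
      exact disj_AA hL hdis hij
  have hU1 : ∀ g, (1 - s) * (K * ε * L * f) ≤ ((UG X b N cl α ε g).card : ℝ) := by
    intro g
    rw [hcU]
    calc (1 - s) * (K * ε * L * f) =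
        ∑ _i ∈ univ.filter (fun i => cl i = g), (1 - s) * (ε * L * f) := by
          rw [sum_const, hcl g, nsmul_eq_mul]; ring
      _ ≤ _ := sum_le_sum fun i _ => hA1 i
  have hU2 : ∀ g, ((UG X b N cl α ε g).card : ℝ) ≤ (1 + s) * (K * ε * L * f) := by
    intro g
    rw [hcU]
    calc _ ≤ ∑ _i ∈ univ.filter (fun i => cl i = g), (1 + s) * (ε * L * f) :=
          sum_le_sum fun i _ => hA2 i
      _ = (1 + s) * (K * ε * L * f) := by
          rw [sum_const, hcl g, nsmul_eq_mul]; ring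
  have hLf0 : 0 < L * f := mul_pos hL hf0
  -- second moment
  have hsm := (h.sm B (Subset.refl _) (fun _ => 1) (by
    intro σ
    rw [abs_one]
    have := h.cc0
    nlinarith))
  have hsm1 := abs_le.1 hsm.1
  have hsM : s * Ω ≤ s * (Ω * M) := by
    apply mul_le_mul_of_nonneg_left _ hs0
    nlinarith
  obtain ⟨A, hA⟩ : ∃ A : ℝ, A = Ω * M := ⟨_, rfl⟩
  rw [← hA] at hsM
  have hsm2 : ∑ n ∈ SI X b, V n ^ 2 ≤ A + s * Ω := by
    rw [hA]
    linarith [hsm1.2]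
  have hsm3 : A - s * Ω ≤ ∑ n ∈ SI X b, V n ^ 2 := by
    rw [hA]
    linarith [hsm1.1]
  have hA0 : 0 < A := by
    rw [hA]
    exact mul_pos hΩ0 hM0
  obtain ⟨h1, h1'⟩ := in4 hs' hs0 hA0 hsM hsm2 hsm3
  have hs'0 : 0 ≤ s' := by linarith
  -- first moment, lower bound
  have key1 : ∀ (S' : Finset ℕ) (e : ℝ), 0 < e → (∀ a ∈ S', a ∈ B ∧ D.cf a = c) →
      (1 - s) * (e * L * f) ≤ (S'.card : ℝ) →
      (1 - s') * (e * (1 + c) ^ 2) * A ≤ ∑ n ∈ SI X b, V n ^ 2 * Np S' n := by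
    intro S' e he hcov' hcard
    rw [moment1]
    have h3 : (S'.card : ℝ) * (Ω' * ((1 + c) ^ 2 * M * (1 - 3 * s))) ≤
        ∑ a ∈ S', ∑ n ∈ SP X b a, V n ^ 2 := by
      rw [← nsmul_eq_mul, ← sum_const]
      refine sum_le_sum fun a ha => ?_
      exact (E3 hCol hCob hMni h (hcov' a ha).1 (hcov' a ha).2).1
    refine le_trans ?_ h3
    by_cases hs3 : 1 - 3 * s ≤ 0
    · have h4 : 1 / 3 ≤ s := by linarith
      linarith
    · push Not at hs3
      have h4 : (1 - s) * (e * L * f) * (Ω' * ((1 + c) ^ 2 * M * (1 - 3 * s))) ≤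
          (S'.card : ℝ) * (Ω' * ((1 + c) ^ 2 * M * (1 - 3 * s))) := by
        apply mul_le_mul_of_nonneg_right hcard
        exact mul_nonneg hΩ'0 (mul_nonneg (mul_nonneg (sq_nonneg _) hM0.le) hs3.le)
      refine le_trans ?_ h4
      have h5 : (1 - s) * (e * L * f) * (Ω' * ((1 + c) ^ 2 * M * (1 - 3 * s))) =
          (L * f * Ω') * ((1 - s) * (1 - 3 * s) * (e * (1 + c) ^ 2 * M)) := by
        ring
      rw [h5]
      have h6 : (1 - s) * Ω * ((1 - s) * (1 - 3 * s) * (e * (1 + c) ^ 2 * M)) ≤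
          (L * f * Ω') * ((1 - s) * (1 - 3 * s) * (e * (1 + c) ^ 2 * M)) := by
        apply mul_le_mul_of_nonneg_right hLf2
        have : 0 ≤ e * (1 + c) ^ 2 * M := by positivity
        have h8 : 0 ≤ (1 - s) * (1 - 3 * s) := mul_nonneg (by linarith) hs3.le
        exact mul_nonneg h8 this
      refine le_trans ?_ h6
      have h7 : 1 - s' ≤ (1 - s) * ((1 - s) * (1 - 3 * s)) := in1 hs0 hs1 hs'
      calc (1 - s') * (e * (1 + c) ^ 2) * A = (1 - s') * (e * (1 + c) ^ 2 * (Ω * M)) := by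
            rw [hA]; ring
        _ ≤ (1 - s) * ((1 - s) * (1 - 3 * s)) * (e * (1 + c) ^ 2 * (Ω * M)) := by
            apply mul_le_mul_of_nonneg_right h7
            positivity
        _ = _ := by ring
  -- second factorial moment
  have key3 : ∀ (S' : Finset ℕ) (e : ℝ), 0 < e → (∀ a ∈ S', a ∈ B ∧ D.cf a = c) →
      (S'.card : ℝ) ≤ (1 + s) * (e * L * f) →
      ∑ n ∈ SI X b, V n ^ 2 * (Np S' n * ((Np S' n : ℝ) - 1)) ≤
        (1 + s) ^ 4 / w4 * (e * (1 + c) ^ 2) ^ 2 * A := by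
    intro S' e he hcov' hcard
    rw [moment2]
    obtain ⟨T, hT⟩ : ∃ T : ℝ, T = Ω' * v * ((1 + c) ^ 4 * M * (1 + s)) := ⟨_, rfl⟩
    have hT0 : 0 ≤ T := by
      rw [hT]
      exact mul_nonneg (mul_nonneg hΩ'0 hv0) (by positivity)
    have h4 : ∑ a ∈ S', ∑ a' ∈ S'.erase a,
        ∑ n ∈ (SP X b a).filter (fun n => (n + a').Prime), V n ^ 2 ≤
        ∑ a ∈ S', ∑ a' ∈ S', T := by
      refine sum_le_sum fun a ha => ?_
      refine le_trans ?_ (sum_le_sum_of_subset_of_nonneg (erase_subset a _)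
        fun _ _ _ => hT0)
      refine sum_le_sum fun a' ha' => ?_
      rw [mem_erase] at ha'
      rw [hT]
      exact E4 hCol hCob hMni h hX hθ (hcov' a ha).1 (hcov' a' ha'.2).1 ha'.1.symm
        (hcov' a ha).2 (hcov' a' ha'.2).2
    refine h4.trans ?_
    rw [sum_const, sum_const, nsmul_eq_mul, nsmul_eq_mul, ← mul_assoc]
    have hcA0 : (0 : ℝ) ≤ (S'.card : ℝ) := Nat.cast_nonneg _
    have h5 : (S'.card : ℝ) * (S'.card : ℝ) ≤
        (1 + s) * (e * L * f) * ((1 + s) * (e * L * f)) :=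
      mul_le_mul hcard hcard hcA0 (by positivity)
    refine (mul_le_mul_of_nonneg_right h5 hT0).trans ?_
    have h6 : (1 + s) * (e * L * f) * ((1 + s) * (e * L * f)) * T =
        (L * f * Ω') * (v * (f * L)) * ((1 + s) ^ 3 * ((e * (1 + c) ^ 2) ^ 2 * M)) := by
      rw [hT]; ring
    rw [h6]
    have h7 : (L * f * Ω') * (v * (f * L)) ≤ (1 + s) * Ω * (1 / w4) :=
      mul_le_mul hLf1 hvL (by positivity) (by positivity)
    calc (L * f * Ω') * (v * (f * L)) * ((1 + s) ^ 3 * ((e * (1 + c) ^ 2) ^ 2 * M)) ≤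
        (1 + s) * Ω * (1 / w4) * ((1 + s) ^ 3 * ((e * (1 + c) ^ 2) ^ 2 * M)) :=
          mul_le_mul_of_nonneg_right h7 (by positivity)
      _ = _ := by rw [hA]; ring
  have hkε : 0 < (K : ℝ) * ε := by positivity
  have hkμ : (K : ℝ) * ε * (1 + c) ^ 2 = K * μ := by rw [hμ]; ring
  have h2 : ∀ g, (1 - s') * (K * μ) * A ≤ ∑ n ∈ SI X b, V n ^ 2 * Np (UG X b N cl α ε g) n := by
    intro g
    have := key1 (UG X b N cl α ε g) (K * ε) hkε (hcovU g) (hU1 g)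
    rwa [hkμ] at this
  have h3 : ∀ g, ∑ n ∈ SI X b, V n ^ 2 * (Np (UG X b N cl α ε g) n *
      ((Np (UG X b N cl α ε g) n : ℝ) - 1)) ≤ (1 + s) ^ 4 / w4 * (K * μ) ^ 2 * A := by
    intro g
    have := key3 (UG X b N cl α ε g) (K * ε) hkε (hcovU g) (hU2 g)
    rwa [hkμ] at this
  have h3i : ∀ i, ∑ n ∈ SI X b, V n ^ 2 * (Np (AA X b N (α i) ε) n *
      ((Np (AA X b N (α i) ε) n : ℝ) - 1)) ≤ (1 + s) ^ 4 / w4 * μ ^ 2 * A := by
    intro i
    rw [hμ]
    exact key3 (AA X b N (α i) ε) ε hε (hcov i) (hA2 i)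
  -- the empty part
  have h4 : ∑ n ∈ SI X b, V n ^ 2 * Np (EE X b N α ε) n ≤ (20 * Λ * s) * A := by
    rw [moment1]
    obtain ⟨T, hT⟩ : ∃ T : ℝ, T = Ω * v * ((η + s) * M) := ⟨_, rfl⟩
    have hη0 := h.η0
    have hT0 : 0 ≤ T := by
      rw [hT]
      exact mul_nonneg (mul_nonneg hΩ0.le hv0) (by positivity)
    have h5 : ∑ a ∈ EE X b N α ε, ∑ n ∈ SP X b a, V n ^ 2 ≤ ∑ a ∈ B, T := by
      have hsub : EE X b N α ε ⊆ B := by
        unfold EE
        exact filter_subset _ _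
      refine le_trans ?_ (sum_le_sum_of_subset_of_nonneg hsub fun _ _ _ => hT0)
      refine sum_le_sum fun a ha => ?_
      have haB := hsub ha
      unfold EE at ha
      rw [mem_filter] at ha
      rw [hT]
      exact E2 hCol hCob hMni h hX hθ haB (by rw [hcf a, if_neg ha.2])
    refine h5.trans ?_
    rw [sum_const, nsmul_eq_mul]
    refine (mul_le_mul_of_nonneg_right hcB hT0).trans ?_
    have h6 : (1 + s) * (Λ * L * f) * T = (v * (f * L)) * ((1 + s) * Λ * (η + s) * A) := by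
      rw [hT, hA]; ring
    rw [h6]
    have h7 : v * (f * L) ≤ 32 / 5 := by
      refine hvL.trans ?_
      rw [div_le_iff₀ hw40]
      linarith
    have h8 : 0 ≤ (1 + s) * Λ * (η + s) * A := by positivity
    refine (mul_le_mul_of_nonneg_right h7 h8).trans ?_
    have h9 : (1 + s) * (η + s) ≤ 3 * s := in3 hs0 hs1 h.ηs
    calc 32 / 5 * ((1 + s) * Λ * (η + s) * A) = 32 / 5 * (Λ * A) * ((1 + s) * (η + s)) := by ring
      _ ≤ 32 / 5 * (Λ * A) * (3 * s) := mul_le_mul_of_nonneg_left h9 (by positivity)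
      _ = 96 / 5 * (Λ * A * s) := by ring
      _ ≤ 20 * (Λ * A * s) := mul_le_mul_of_nonneg_right (by norm_num) (by positivity)
      _ = _ := by ring
  have h5 : ∑ n ∈ SI X b, V n ^ 4 ≤ C * Ω := hsm.2.2.2.2
  have hkey := pv3 hCs k T hT lam hlam (SI X b) V (fun i => Np (AA X b N (α i) ε))
    (fun g => Np (UG X b N cl α ε g)) (Np (EE X b N α ε)) A (K * μ) μ s' ((1 + s) ^ 4 / w4)
    (20 * Λ * s) (C * Ω) κ (1 / (40 * lam)) hA0 h1 h2 h3 h3i h4 h5 (by positivity) hκ.le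
    (by positivity) hfin
  have h6 : Ω * (κ ^ 2 / C) ≤ (κ * A) ^ 2 / (C * Ω) := by
    have h7 : Ω ≤ A := by rw [hA]; nlinarith
    have h8 : Ω * (κ ^ 2 / C) = (κ * Ω) ^ 2 / (C * Ω) := by
      field_simp
    rw [h8]
    gcongr
  refine h6.trans (hkey.trans ?_)
  have h9 : (SI X b).filter (fun n => 1 / (40 * lam) * T ≤ ∑ g, fn lam (Np (UG X b N cl α ε g) n) ∧
      Np (EE X b N α ε) n = 0 ∧ ∀ i, Np (AA X b N (α i) ε) n ≤ 1) ⊆
      (SI X b).filter (fun n => GoodG lam cl α ε Λ X n) := by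
    intro n hn
    rw [mem_filter] at hn ⊢
    refine ⟨hn.1, goodG_of lam cl α ε Λ hHX hL hdis hn.1 ?_ hn.2.2.1 hn.2.2.2⟩
    refine le_trans (le_of_eq ?_) hn.2.1
    ring
  exact_mod_cast card_le_card h9

end Pool.Agent.E8helper24.PG
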