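import Mathlib
import Pool.Agent.R527.LV.Main
import Pool.Agent.W218.TX.Up
import Pool.Agent.TH891.SG.Gal4

/-! Vectors of consecutive gaps with the right order of frequency: general transfer principle,
adapted from `Pool.Agent.R527.LV.main`. -/

set_option autoImplicit false

namespace Pool.Agent.E8helper24.PG

open Finset Filter Topology Pool.Agent.H387R2 Pool.Agent.R527.LV

open Classical in
/-- If a positive proportion of the indices below `π(x) - k` has a property which implies the property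
`S` of the vector of the `k` following gaps, then many vectors with the property `S` occur with the
right order of frequency.  The constants do not depend on the properties. -/
theorem vec_of (k : ℕ) (c₁ : ℝ) (hc₁ : 0 < c₁)
    (hup : ∃ B : ℝ, 0 < B ∧ ∀ C : ℝ, ∀ᶠ N : ℕ in atTop, ∀ T : Finset ℕ,
      T.card = k + 1 → (∀ t ∈ T, (t : ℝ) ≤ Real.log N ^ C) →
      (Uni.piT T N : ℝ) ≤ B * ((N / Real.log N ^ (k + 1)) * Uni.CT T))
    (hmom : ∃ C : ℝ, 0 < C ∧ ∀ H : ℕ,
      ∑ T ∈ (range H).powersetCard (k + 1), Uni.CT T ^ 2 ≤ C * (H : ℝ) ^ (k + 1))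
    (hCT : ∀ T, 0 ≤ Uni.CT T) :
    ∃ c : ℝ, 0 < c ∧ ∃ M : ℝ, ∀ᶠ x : ℕ in atTop, ∀ (Q : ℕ → Prop) (S : (Fin k → ℕ) → Prop),
      (∀ j, Real.sqrt x ≤ P j → P (j + k) ≤ x → Q j →
        S (fun i => P (j + i + 1) - P (j + i))) →
      c₁ * ((Nat.primeCounting x - k : ℕ) : ℝ) ≤
        (((range (Nat.primeCounting x - k)).filter Q).card : ℝ) →
      c * Real.log x ^ k ≤ (((box k ⌊M * Real.log x⌋₊).filter (fun h => S h ∧
        c * (1 + Uni.CT (pat h)) * (x / Real.log x ^ (k + 1)) ≤ cnt x h)).card : ℝ) := by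
  obtain ⟨B, hB, hup⟩ := hup
  obtain ⟨C, hC, hmom⟩ := hmom
  set M : ℝ := 16 * (k + 1) / c₁ with hM
  have hM0 : 0 < M := by positivity
  set D : ℝ := C * 2 ^ (k + 1) * (k * M + 1) ^ k with hD
  have hD0 : 0 < D := by positivity
  set E : ℝ := 2 * M ^ k + D with hE
  have hE0 : 0 < E := by positivity
  set a : ℝ := c₁ / 16 with ha
  have ha0 : 0 < a := by positivity
  set c : ℝ := min (a / E) (a ^ 2 / (B ^ 2 * D)) with hc
  have hc0 : 0 < c := by positivity
  refine ⟨c, hc0, M, ?_⟩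
  have tN : Tendsto (fun N : ℕ => (N : ℝ)) atTop atTop := tendsto_natCast_atTop_atTop
  have tL : Tendsto (fun N : ℕ => Real.log (N : ℝ)) atTop atTop := Real.tendsto_log_atTop.comp tN
  have hsq : ∀ᶠ x : ℕ in atTop, Real.log (x : ℝ) * (Real.sqrt x + 1) ≤ (c₁ / 16) * x := by
    have h1 := (isLittleO_log_rpow_atTop (show (0 : ℝ) < 1 / 4 by norm_num))
    have h2 := (h1.comp_tendsto tN).bound (show (0 : ℝ) < c₁ / 32 by positivity)
    filter_upwards [h2, eventually_ge_atTop 1] with x hx h1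
    have hx1 : (1 : ℝ) ≤ x := by exact_mod_cast h1
    have hl : 0 ≤ Real.log (x : ℝ) := Real.log_nonneg hx1
    simp only [Function.comp_apply, Real.norm_eq_abs] at hx
    rw [abs_of_nonneg hl, abs_of_nonneg (by positivity)] at hx
    have h3 : Real.sqrt x + 1 ≤ 2 * (x : ℝ) ^ (3 / 4 : ℝ) := by
      have e1 : Real.sqrt x ≤ (x : ℝ) ^ (3 / 4 : ℝ) := by
        rw [Real.sqrt_eq_rpow]
        exact Real.rpow_le_rpow_of_exponent_le hx1 (by norm_num)
      have e2 : (1 : ℝ) ≤ (x : ℝ) ^ (3 / 4 : ℝ) := Real.one_le_rpow hx1 (by norm_num)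
      linarith
    calc Real.log (x : ℝ) * (Real.sqrt x + 1) ≤
        (c₁ / 32 * (x : ℝ) ^ (1 / 4 : ℝ)) * (2 * (x : ℝ) ^ (3 / 4 : ℝ)) :=
          mul_le_mul hx h3 (by positivity) (by positivity)
      _ = c₁ / 16 * ((x : ℝ) ^ (1 / 4 : ℝ) * (x : ℝ) ^ (3 / 4 : ℝ)) := by ring
      _ = c₁ / 16 * x := by
          rw [← Real.rpow_add (by linarith)]
          norm_num
  filter_upwards [pi_low k, hsq, hup 2, tL.eventually_ge_atTop (max 1 (k * M)),
    tN.eventually_ge_atTop (((k + 2 : ℕ) : ℝ) ^ 2)] with x h1 h2 h4 h5 h6 Q S hQS hcount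
  set L := Real.log (x : ℝ) with hL
  have hL1 : 1 ≤ L := (le_max_left _ _).trans h5
  have hLM : k * M ≤ L := (le_max_right _ _).trans h5
  have hL0 : 0 < L := by linarith
  have hx0 : (0 : ℝ) < x := lt_of_lt_of_le (by positivity) h6
  have hx1 : 1 ≤ x := by
    have : 0 < x := by exact_mod_cast hx0
    omega
  set N := Nat.primeCounting x - k with hN
  set m := ⌊M * L⌋₊ with hm
  have hmM : (m : ℝ) ≤ M * L := Nat.floor_le (by positivity)
  set G₀ := (range N).filter Q with hG₀
  have g0 : c₁ * N ≤ (G₀.card : ℝ) := hcount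
  set B₁ := (range N).filter (fun j => (P j : ℝ) < Real.sqrt x) with hB₁
  set B₂ := (range k).biUnion (fun i => (range N).filter (fun j =>
    M * L < (P (j + i + 1) : ℝ) - P (j + i))) with hB₂
  have b1 : (B₁.card : ℝ) ≤ c₁ / 16 * (x / L) := by
    have e1 : B₁ ⊆ range (⌊Real.sqrt x⌋₊ + 1) := by
      intro j hj
      rw [hB₁, mem_filter] at hj
      rw [mem_range, Nat.lt_succ_iff]
      apply Nat.le_floor
      have : (j : ℝ) ≤ P j := by exact_mod_cast le_P j
      linarith [hj.2]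
    have e2 : (B₁.card : ℝ) ≤ Real.sqrt x + 1 := by
      have := card_le_card e1
      rw [card_range] at this
      have h7 : (B₁.card : ℝ) ≤ (⌊Real.sqrt x⌋₊ + 1 : ℕ) := by exact_mod_cast this
      push_cast at h7
      have h8 := Nat.floor_le (Real.sqrt_nonneg (x : ℝ))
      linarith
    refine e2.trans ?_
    rw [← mul_div_assoc, le_div_iff₀ hL0]
    linarith
  have b2 : (B₂.card : ℝ) ≤ c₁ / 16 * (x / L) := by
    have e1 : (B₂.card : ℝ) ≤ ∑ i ∈ range k, (x : ℝ) / (M * L) := by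
      have e2 : (B₂.card : ℝ) ≤ ∑ i ∈ range k, (((range N).filter (fun j =>
          M * L < (P (j + i + 1) : ℝ) - P (j + i))).card : ℝ) := by
        have := card_biUnion_le (s := range k) (t := fun i => (range N).filter (fun j =>
          M * L < (P (j + i + 1) : ℝ) - P (j + i)))
        refine (Nat.cast_le (α := ℝ).2 this).trans (le_of_eq ?_)
        rw [Nat.cast_sum]
      refine e2.trans (sum_le_sum fun i hi => ?_)
      apply few_long N i x (M * L) (by positivity)
      rw [mem_range] at hi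
      rcases Nat.eq_zero_or_pos N with h0 | h0
      · -- `N = 0` : impossible as `N ≥ x / (4 L) > 0`
        exfalso
        have : (0 : ℝ) < N := lt_of_lt_of_le (by positivity) h1
        rw [h0] at this
        simp at this
      · apply P_le_of_lt
        omega
    rw [sum_const, card_range, nsmul_eq_mul] at e1
    refine e1.trans ?_
    have e3 : (k : ℝ) * (x / (M * L)) = (k / M) * (x / L) := by
      field_simp
    rw [e3]
    apply mul_le_mul_of_nonneg_right _ (by positivity)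
    rw [hM, div_div_eq_mul_div, div_le_div_iff₀ (by positivity) (by norm_num)]
    nlinarith
  set G := G₀ \ (B₁ ∪ B₂) with hG
  have g1 : c₁ / 8 * (x / L) ≤ (G.card : ℝ) := by
    have e1 : G₀.card ≤ G.card + (B₁.card + B₂.card) := by
      calc G₀.card ≤ (G ∪ (B₁ ∪ B₂)).card := by
            apply card_le_card
            rw [hG, sdiff_union_self_eq_union]
            exact subset_union_left
        _ ≤ G.card + (B₁ ∪ B₂).card := card_union_le _ _
        _ ≤ G.card + (B₁.card + B₂.card) := Nat.add_le_add_left (card_union_le _ _) _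
    have e2 : (G₀.card : ℝ) ≤ G.card + (B₁.card + B₂.card) := by exact_mod_cast e1
    have e3 : c₁ * (x / (4 * L)) ≤ c₁ * N := mul_le_mul_of_nonneg_left h1 hc₁.le
    have e4 : c₁ * (x / (4 * L)) = c₁ / 4 * (x / L) := by field_simp
    have e5 : (0:ℝ) < x / L := by positivity
    linarith
  -- facts about the elements of `G`
  have key : ∀ j ∈ G, Real.sqrt x ≤ P j ∧ P (j + k) ≤ x ∧ j < Nat.primeCounting x ∧
      (∀ i < k, (P (j + i + 1) : ℝ) - P (j + i) ≤ M * L) ∧ Q j := by
    intro j hj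
    rw [hG, Finset.mem_sdiff, mem_union, not_or] at hj
    obtain ⟨hj0, hj1, hj2⟩ := hj
    rw [hG₀, mem_filter, mem_range] at hj0
    obtain ⟨hjN, hj0⟩ := hj0
    have a1 : Real.sqrt x ≤ P j := by
      by_contra hcon
      exact hj1 (mem_filter.2 ⟨mem_range.2 hjN, not_le.1 hcon⟩)
    have a2 : ∀ i < k, (P (j + i + 1) : ℝ) - P (j + i) ≤ M * L := by
      intro i hi
      by_contra hcon
      apply hj2
      rw [hB₂, mem_biUnion]
      exact ⟨i, mem_range.2 hi, mem_filter.2 ⟨mem_range.2 hjN, not_le.1 hcon⟩⟩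
    exact ⟨a1, P_le_of_lt (by omega), by omega, a2, hj0⟩
  -- the vector of the gaps
  set gv : ℕ → Fin k → ℕ := fun j i => P (j + i + 1) - P (j + i) with hgv
  have gvr : ∀ j (i : Fin k), (gv j i : ℝ) = (P (j + i + 1) : ℝ) - P (j + i) := by
    intro j i
    have : P (j + i) ≤ P (j + i + 1) := P_strictMono.monotone (by omega)
    simp only [hgv]
    rw [Nat.cast_sub this]
  have gvn : ∀ j (i : Fin k), P (j + i + 1) = P (j + i) + gv j i := by
    intro j i
    have : P (j + i) ≤ P (j + i + 1) := P_strictMono.monotone (by omega)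
    simp only [hgv]
    omega
  set R := (box k m).filter (fun h => S h) with hR
  have hmaps : ∀ j ∈ G, gv j ∈ R := by
    intro j hj
    obtain ⟨k1, k2, k3, k4, k5⟩ := key j hj
    rw [hR, mem_filter, mem_box]
    refine ⟨fun i => ⟨?_, ?_⟩, hQS j k1 k2 k5⟩
    · have : P (j + i) < P (j + i + 1) := P_strictMono (by omega)
      simp only [hgv]
      omega
    · have := k4 i i.2
      rw [← gvr j i] at this
      exact Nat.le_floor this
  -- fibres
  set g : (Fin k → ℕ) → ℕ := fun h => (G.filter (fun j => gv j = h)).card with hg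
  have hsum : G.card = ∑ h ∈ R, g h := card_eq_sum_card_fiberwise hmaps
  have hfib : ∀ h, ∀ n ∈ G.filter (fun j => gv j = h), k + 1 < P n ∧ P (n + k) ≤ x ∧
      ∀ i : Fin k, P (n + i + 1) = P (n + i) + h i := by
    intro h n hn
    rw [mem_filter] at hn
    obtain ⟨hn1, rfl⟩ := hn
    obtain ⟨k1, k2, k3, k4, k5⟩ := key n hn1
    refine ⟨?_, k2, gvn n⟩
    have e1 : ((k + 2 : ℕ) : ℝ) ≤ Real.sqrt x := by
      apply Real.le_sqrt_of_sq_le
      exact h6
    have e2 : ((k + 2 : ℕ) : ℝ) ≤ P n := e1.trans k1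
    have : k + 2 ≤ P n := by exact_mod_cast e2
    omega
  have hgf : ∀ h ∈ R, g h ≤ cnt x h := by
    intro h _
    apply card_le_card
    intro n hn
    obtain ⟨f1, f2, f3⟩ := hfib h n hn
    rw [mem_filter] at hn
    obtain ⟨_, _, k3, _⟩ := key n hn.1
    rw [mem_filter, mem_range]
    exact ⟨k3, f2, f3⟩
  set V : ℝ := x / L ^ (k + 1) with hV
  have hV0 : 0 < V := by positivity
  have hVL : V * L ^ k = x / L := by
    rw [hV, pow_succ]; field_simp
  have hupR : ∀ h ∈ R, (g h : ℝ) ≤ B * (V * Uni.CT (pat h)) := by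
    intro h hh
    rw [hR, mem_filter, mem_box] at hh
    have e1 : g h ≤ Uni.piT (pat h) x := le_piT _ (hfib h)
    have e2 : (g h : ℝ) ≤ Uni.piT (pat h) x := by exact_mod_cast e1
    refine e2.trans (h4 (pat h) (pat_card fun i => (hh.1 i).1) ?_)
    intro t ht
    have e3 := pat_le (fun i => (hh.1 i).2) ht
    have e4 : (t : ℝ) ≤ k * m := by exact_mod_cast e3
    have e5 : (k : ℝ) * m ≤ k * (M * L) := mul_le_mul_of_nonneg_left hmM (Nat.cast_nonneg _)
    have e6 : (k : ℝ) * (M * L) ≤ L ^ 2 := by nlinarith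
    have e7 : L ^ (2 : ℝ) = L ^ 2 := by norm_cast
    rw [e7]
    linarith
  have hmom2 : ∑ h ∈ box k m, Uni.CT (pat h) ^ 2 ≤ D * L ^ k := by
    refine (mom k C hmom m).trans ?_
    have e1 : ((k * m + 1 : ℕ) : ℝ) ≤ (k * M + 1) * L := by
      push_cast
      have : (k : ℝ) * m ≤ k * (M * L) := mul_le_mul_of_nonneg_left hmM (Nat.cast_nonneg _)
      nlinarith
    calc C * 2 ^ (k + 1) * ((k * m + 1 : ℕ) : ℝ) ^ k ≤ C * 2 ^ (k + 1) * ((k * M + 1) * L) ^ k :=
          mul_le_mul_of_nonneg_left (pow_le_pow_left₀ (Nat.cast_nonneg _) e1 k) (by positivity)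
      _ = D * L ^ k := by rw [mul_pow, hD]; ring
  have hRb : R ⊆ box k m := filter_subset _ _
  have hS2 : ∑ h ∈ R, Uni.CT (pat h) ^ 2 ≤ D * L ^ k :=
    le_trans (sum_le_sum_of_subset_of_nonneg hRb fun h _ _ => by positivity) hmom2
  have hS1 : ∑ h ∈ R, (1 + Uni.CT (pat h)) ≤ E * L ^ k := by
    calc ∑ h ∈ R, (1 + Uni.CT (pat h)) ≤ ∑ h ∈ box k m, (2 + Uni.CT (pat h) ^ 2) := by
          refine le_trans (sum_le_sum_of_subset_of_nonneg hRb ?_) (sum_le_sum ?_)
          · intro h _ _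
            have := hCT (pat h)
            linarith
          · intro h _
            nlinarith [sq_nonneg (Uni.CT (pat h) - 1)]
      _ = 2 * (m : ℝ) ^ k + ∑ h ∈ box k m, Uni.CT (pat h) ^ 2 := by
          rw [sum_add_distrib, sum_const, card_box, nsmul_eq_mul]
          push_cast; ring
      _ ≤ 2 * (M * L) ^ k + D * L ^ k := by
          have := pow_le_pow_left₀ (Nat.cast_nonneg m) hmM k
          linarith
      _ = E * L ^ k := by rw [mul_pow, hE]; ring
  have hfin := fin_count R g (cnt x) (fun h => Uni.CT (pat h)) B D E a V (L ^ k) c hB hD0 hE0 ha0 hV0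
    (by positivity) (fun h _ => hCT _) hgf (by
      have e1 : ∑ h ∈ R, (g h : ℝ) = (G.card : ℝ) := by rw [hsum]; push_cast; rfl
      rw [e1, hVL, ha]
      refine le_trans (le_of_eq ?_) g1
      ring) hupR hS1 hS2 hc0.le
    (by
      calc c * E ≤ a / E * E := mul_le_mul_of_nonneg_right (min_le_left _ _) hE0.le
        _ = a := by field_simp)
    (by
      calc c * (B ^ 2 * D) ≤ a ^ 2 / (B ^ 2 * D) * (B ^ 2 * D) :=
            mul_le_mul_of_nonneg_right (min_le_right _ _) (by positivity)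
        _ = a ^ 2 := by field_simp)
  refine hfin.trans ?_
  rw [hR, filter_filter]

open Classical in
theorem vec (k : ℕ) (c₁ : ℝ) (hc₁ : 0 < c₁) :
    ∃ c : ℝ, 0 < c ∧ ∃ M : ℝ, ∀ᶠ x : ℕ in atTop, ∀ (Q : ℕ → Prop) (S : (Fin k → ℕ) → Prop),
      (∀ j, Real.sqrt x ≤ P j → P (j + k) ≤ x → Q j →
        S (fun i => P (j + i + 1) - P (j + i))) →
      c₁ * ((Nat.primeCounting x - k : ℕ) : ℝ) ≤
        (((range (Nat.primeCounting x - k)).filter Q).card : ℝ) →
      c * Real.log x ^ k ≤ (((box k ⌊M * Real.log x⌋₊).filter (fun h => S h ∧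
        c * (1 + Uni.CT (pat h)) * (x / Real.log x ^ (k + 1)) ≤ cnt x h)).card : ℝ) :=
  vec_of k c₁ hc₁ (Pool.Agent.W218.TX.pi_upper k) (Pool.Agent.TH891.SG.CT_mom k 2) Uni.CT_nonneg

end Pool.Agent.E8helper24.PG
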