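import Pool.Agent.E8helper24.PG.ForceIdx
import Pool.Agent.E8helper24.PG.Vec

/-! From a property of a positive proportion of the indices to vectors of gaps which occur with the
right order of frequency: final form. -/

set_option autoImplicit false

open Finset

namespace Pool.Agent.E8helper24.PG

open Pool.Agent.H387R2 Pool.Agent.R527.LV

theorem card_inst {α : Type*} (s : Finset α) (p : α → Prop) (i1 i2 : DecidablePred p) :
    (@Finset.filter α p i1 s).card = (@Finset.filter α p i2 s).card := by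
  have : i1 = i2 := Subsingleton.elim _ _
  rw [this]

theorem mem_filter_inst {α : Type*} {s : Finset α} {p : α → Prop} {i : DecidablePred p} {a : α} :
    a ∈ @Finset.filter α p i s ↔ a ∈ s ∧ p a := @Finset.mem_filter α p i s a

theorem P_eq (j : ℕ) : Pool.Agent.H361R2.PP.P j = P j := rfl

open Classical in
/-- Vectors of gaps with the right order of frequency, for a family of index properties and
vector properties depending on `x`. -/
theorem vec_index (k : ℕ) (K c₁ : ℝ) (hK : 0 ≤ K) (hc₁ : 0 < c₁) :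
    ∃ c : ℝ, 0 < c ∧ ∃ M : ℝ, ∃ x₀ : ℕ, ∀ x : ℕ, x₀ ≤ x → ∀ (Q : ℕ → Prop) (S : (Fin k → ℕ) → Prop),
      (∀ j, Q j → S (fun i => P (j + i + 1) - P (j + i))) →
      c₁ * ((Nat.primeCounting x - k : ℕ) : ℝ) ≤
        (((range (Nat.primeCounting x - k)).filter (fun j => (∀ i < k,
          2 * K * Real.log (P j) ≤ (P (j + i + 1) : ℝ) - P (j + i)) ∧ Q j)).card : ℝ) →
      c * Real.log x ^ k ≤ (((box k ⌊M * Real.log x⌋₊).filter (fun h =>
        ((∀ i, K * Real.log x ≤ h i) ∧ S h) ∧
        c * (1 + Uni.CT (pat h)) * (x / Real.log x ^ (k + 1)) ≤ cnt x h)).card : ℝ) := by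
  obtain ⟨c, hc, M, hev⟩ := vec k c₁ hc₁
  obtain ⟨x₀, hx₀⟩ := Filter.eventually_atTop.1 hev
  refine ⟨c, hc, M, max x₀ 1, fun x hx Q S hQS hcount => ?_⟩
  have hx1 : 1 ≤ x := (le_max_right _ _).trans hx
  have hxR : (1 : ℝ) ≤ x := by exact_mod_cast hx1
  have hL : 0 ≤ Real.log (x : ℝ) := Real.log_nonneg hxR
  refine (hx₀ x ((le_max_left _ _).trans hx) (fun j => (∀ i < k,
          2 * K * Real.log (P j) ≤ (P (j + i + 1) : ℝ) - P (j + i)) ∧ Q j)
    (fun h => (∀ i, K * Real.log x ≤ h i) ∧ S h) ?_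
    (hcount.trans (le_of_eq (congrArg Nat.cast (card_inst _ _ _ _))))).trans
    (le_of_eq (congrArg Nat.cast (card_inst _ _ _ _)))
  intro j h1 h2 h3
  refine ⟨fun i => ?_, hQS j h3.2⟩
  have h4 := h3.1 i i.2
  have h5 : P (j + i) ≤ P (j + i + 1) := P_strictMono.monotone (by omega)
  rw [Nat.cast_sub h5]
  refine le_trans ?_ h4
  have h6 : Real.log x / 2 ≤ Real.log (P j) := by
    have e2 : Real.log (Real.sqrt x) = Real.log x / 2 := Real.log_sqrt (by linarith)
    rw [← e2]
    exact Real.log_le_log (Real.sqrt_pos.2 (by linarith)) h1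
  have h7 : 2 * K * (Real.log x / 2) ≤ 2 * K * Real.log (P j) :=
    mul_le_mul_of_nonneg_left h6 (by linarith)
  linarith

end Pool.Agent.E8helper24.PG
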