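import Pool.Agent.E8helper24.PG.Idx
import Pool.Agent.TH29.GO.Force

/-! Forced order patterns of consecutive gaps for a positive proportion of indices. -/

set_option autoImplicit false

open Finset

namespace Pool.Agent.E8helper24.PG

open Pool.Agent.H361R2.PP Pool.Agent.TH779.Ord Pool.Agent.TH29.GO

/-- the gap after the prime number `m` -/
noncomputable def gp' (m : ℕ) : ℝ := (P (m + 1) : ℝ) - P m

open Classical in
theorem forced_idx1 {k : ℕ} {σ : ℕ → ℕ} (hF : Forces 40 k σ) (K : ℝ) (hK : 1 ≤ K) :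
    ∃ c : ℝ, 0 < c ∧ ∃ N₀ : ℕ, ∀ N : ℕ, N₀ ≤ N →
      c * N ≤ (((range N).filter (fun m => (∀ i < k, K * Real.log (P m) ≤ gp' (m + i)) ∧
        ∀ i j, i < k → j < k → σ i < σ j → K * gp' (m + i) ≤ gp' (m + j))).card : ℝ) := by
  obtain ⟨T, hT1, hT⟩ := hF
  obtain ⟨Gr, hGr⟩ : ∃ G : ℤ, G = 8 * ⌈K⌉ + 8 := ⟨_, rfl⟩
  have hKc : (K : ℝ) ≤ ⌈K⌉ := Int.le_ceil K
  have hK0 : (1 : ℤ) ≤ ⌈K⌉ := Int.one_le_ceil_iff.2 (by linarith)
  have hGr8 : 8 ≤ Gr := by omega
  have hGrK : 8 * K + 8 ≤ (Gr : ℝ) := by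
    rw [hGr]; push_cast; linarith
  set b : ℕ → ℤ := fun e => Gr ^ e with hb
  have hscale : Scale b := by
    constructor
    · intro e
      exact one_le_pow₀ (by omega)
    · intro e
      have h1 : (0 : ℤ) ≤ Gr ^ e := by positivity
      show 8 * Gr ^ e ≤ Gr ^ (e + 1)
      rw [pow_succ]
      nlinarith
  set Kc := 8 * T with hKcd
  obtain ⟨off, hinj, -, hforce⟩ := hT Kc (by omega) b hscale 1 (fun e => one_dvd _)
  let e : Fin T × Fin Kc ≃ Fin (T * Kc) := finProdFinEquiv
  set pos : Fin (T * Kc) → ℤ := fun i => off (e.symm i).1 (e.symm i).2 with hposd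
  have hpos : Function.Injective pos := by
    intro i j hij
    have := @hinj (e.symm i) (e.symm j) hij
    exact e.symm.injective this
  set cl : Fin (T * Kc) → Fin T := fun i => (e.symm i).1 with hcld
  have hcl : ∀ g, (univ.filter (fun i => cl i = g)).card = Kc := by
    intro g
    have h1 : (univ.filter (fun i => cl i = g)) = (univ : Finset (Fin Kc)).image (fun j => e (g, j)) := by
      ext i
      simp only [mem_filter, mem_univ, true_and, mem_image]
      constructor
      · intro h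
        refine ⟨(e.symm i).2, ?_⟩
        rw [← h]
        show e ((e.symm i).1, (e.symm i).2) = i
        exact e.apply_symm_apply i
      · rintro ⟨j, rfl⟩
        show (e.symm (e (g, j))).1 = g
        rw [e.symm_apply_apply]
    rw [h1, card_image_of_injective, card_univ, Fintype.card_fin]
    intro j j' h
    have := e.injective h
    exact (Prod.ext_iff.1 this).2
  obtain ⟨U, hU⟩ : ∃ U : ℝ, U = 16 * K := ⟨_, rfl⟩
  obtain ⟨ε, hε⟩ : ∃ ε : ℝ, ε = U / 4 := ⟨_, rfl⟩
  have hU0 : 0 < U := by rw [hU]; linarith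
  have hε0 : 0 < ε := by rw [hε]; linarith
  set z₀ : ℤ := ∑ i, |pos i| with hz₀
  have hz : ∀ i, |pos i| ≤ z₀ := fun i =>
    single_le_sum (f := fun i => |pos i|) (fun _ _ => abs_nonneg _) (mem_univ i)
  have hz0 : 0 ≤ z₀ := sum_nonneg fun _ _ => abs_nonneg _
  obtain ⟨Λ, hΛd⟩ : ∃ Λ : ℝ, Λ = U * (2 * z₀ + 1) := ⟨_, rfl⟩
  have hΛ : 0 < Λ := by
    rw [hΛd]
    have : (0 : ℝ) ≤ z₀ := by exact_mod_cast hz0
    positivity
  set α : Fin (T * Kc) → ℝ := fun i => U * ((pos i + z₀ : ℤ) : ℝ) with hαd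
  have hα : ∀ i, 0 ≤ α i ∧ α i + ε ≤ Λ := by
    intro i
    have h1 := abs_le.1 (hz i)
    have h2 : (0 : ℝ) ≤ ((pos i + z₀ : ℤ) : ℝ) := by exact_mod_cast (by linarith [h1.1] : 0 ≤ pos i + z₀)
    have h3 : ((pos i + z₀ : ℤ) : ℝ) ≤ 2 * z₀ := by
      exact_mod_cast (by linarith [h1.2] : pos i + z₀ ≤ 2 * z₀)
    refine ⟨mul_nonneg hU0.le h2, ?_⟩
    have h4 : U * ((pos i + z₀ : ℤ) : ℝ) ≤ U * (2 * z₀) := mul_le_mul_of_nonneg_left h3 hU0.le
    rw [hΛd, hε]
    simp only [hαd]
    linarith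
  have hdis : ∀ i j, i ≠ j → α i + ε ≤ α j ∨ α j + ε ≤ α i := by
    intro i j hij
    have key : ∀ i j, pos i < pos j → α i + ε ≤ α j := by
      intro i j h
      have h3 : ((pos i + z₀ : ℤ) : ℝ) + 1 ≤ ((pos j + z₀ : ℤ) : ℝ) := by
        exact_mod_cast (by omega : pos i + z₀ + 1 ≤ pos j + z₀)
      have h4 := mul_le_mul_of_nonneg_left h3 hU0.le
      simp only [hαd]
      linarith
    rcases lt_trichotomy (pos i) (pos j) with h | h | h
    · exact Or.inl (key i j h)
    · exact absurd (hpos h) hij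
    · exact Or.inr (key j i h)
  obtain ⟨X₁, hX₁3, hsize⟩ := log_size hΛ
  obtain ⟨c, hc, N₀, hmain⟩ := idx (lam := 1) hT1 (le_refl (8 * T)) le_rfl cl hcl α ε Λ hε0 hΛ hα hdis
    (fun _ m => (∀ i < k, K * Real.log (P m) ≤ gp' (m + i)) ∧
        ∀ i j, i < k → j < k → σ i < σ j → K * gp' (m + i) ≤ gp' (m + j)) X₁ (by
    intro X hX n hn1 hn2 hgood
    have hX3 : 3 ≤ X := hX₁3.trans hX
    obtain ⟨hg1, hg2, hg3⟩ := hgood
    have hL : 0 < Real.log X := Real.log_pos (by exact_mod_cast (by omega : 1 < X))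
    -- the classes which are hit
    set S : Finset (Fin T) := univ.filter (fun g => ∃ i, cl i = g ∧ 1 = cn (α i) ε Λ X n) with hS
    have hch : ∀ g, ∃ j : Fin Kc, g ∈ S → 1 = cn (α (e (g, j))) ε Λ X n := by
      intro g
      by_cases hgS : g ∈ S
      · rw [hS, mem_filter] at hgS
        obtain ⟨-, i, hi1, hi2⟩ := hgS
        refine ⟨(e.symm i).2, fun _ => ?_⟩
        have h3 : e (g, (e.symm i).2) = i := by
          rw [← hi1]
          show e ((e.symm i).1, (e.symm i).2) = i
          exact e.apply_symm_apply i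
        rw [h3]
        exact hi2
      · exact ⟨⟨0, by omega⟩, fun h => absurd h hgS⟩
    choose ch hch using hch
    have hScard : T ≤ 40 * S.card := by
      have h3 : ∑ g : Fin T, fn 1 ((univ : Finset (Fin (T * Kc))).filter
          (fun i => cl i = g ∧ 1 = cn (α i) ε Λ X n)).card ≤ S.card := by
        calc _ ≤ ∑ g : Fin T, (if g ∈ S then (1 : ℝ) else 0) := by
              apply sum_le_sum
              intro g _
              by_cases hgS : g ∈ S
              · rw [if_pos hgS]
                exact fn_le_one le_rfl _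
              · rw [if_neg hgS]
                have h4 : ((univ : Finset (Fin (T * Kc))).filter
                    (fun i => cl i = g ∧ 1 = cn (α i) ε Λ X n)).card = 0 := by
                  rw [card_eq_zero, filter_eq_empty_iff]
                  intro i _ hi
                  exact hgS (mem_filter.2 ⟨mem_univ _, i, hi⟩)
                rw [h4]
                unfold fn
                simp
          _ = S.card := by
              rw [← sum_filter, sum_const, nsmul_eq_mul, mul_one, filter_mem_eq_inter, univ_inter]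
      have h4 := hg1.trans h3
      rw [mul_one, div_le_iff₀ (by norm_num)] at h4
      have h5 : (T : ℝ) ≤ 40 * S.card := by linarith
      exact_mod_cast h5
    obtain ⟨x, E, k1, k2, k3, k4, k5⟩ := hforce (hits pos α ε Λ X n) S ch (by
        intro y hy
        unfold hits at hy
        rw [mem_image] at hy
        obtain ⟨i, -, rfl⟩ := hy
        exact ⟨_, _, rfl⟩) hScard (by
        intro g hg
        unfold hits
        rw [mem_image]
        refine ⟨e (g, ch g), mem_filter.2 ⟨mem_univ _, hch g hg⟩, ?_⟩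
        show off (e.symm (e (g, ch g))).1 (e.symm (e (g, ch g))).2 = _
        rw [e.symm_apply_apply])
    obtain ⟨m, a, ha1, ha2, ha3, ha4⟩ := window_idx pos hpos U ε Λ z₀ hε0 (by rw [hε]; linarith) X n
      (by omega) hg2 hg3 k x k1 k2 k3
    refine ⟨m, a, ha1, ha2, ?_, ?_⟩
    · intro i hi
      have h5 := (abs_le.1 (ha4 i hi)).1
      have h6 : (1 : ℝ) ≤ ((x (i + 1) - x i : ℤ) : ℝ) := by
        have := k1 i (i + 1) (by omega) (by omega)
        exact_mod_cast (by omega : (1 : ℤ) ≤ x (i + 1) - x i)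
      have h7 : U * 1 * Real.log X ≤ U * ((x (i + 1) - x i : ℤ) : ℝ) * Real.log X :=
        mul_le_mul_of_nonneg_right (mul_le_mul_of_nonneg_left h6 hU0.le) hL.le
      have h8 : Real.log (P m) ≤ 2 * Real.log X := by
        apply hsize X n hX hn2 _ (Nat.prime_nth_prime m).pos
        have := ha3 0 (Nat.zero_le _)
        rwa [Nat.add_zero] at this
      have h9 : K * Real.log (P m) ≤ K * (2 * Real.log X) :=
        mul_le_mul_of_nonneg_left h8 (by linarith)
      unfold gp'
      have h10 : U * Real.log X = 16 * (K * Real.log X) := by rw [hU]; ring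
      have h11 : 0 ≤ K * Real.log X := by positivity
      have h12 : ε * Real.log X = U * Real.log X / 4 := by rw [hε]; ring
      linarith
    · intro i j hi hj hij
      have hEE := k5 i j hi hj hij
      have g1 := (abs_le.1 (ha4 i hi)).2
      have g2 := (abs_le.1 (ha4 j hj)).1
      have w1 := (k4 i hi).2
      have w2 := (k4 j hj).1
      have h5 : Gr * b (E i) ≤ b (E j) := by
        have h6 : b (E i + 1) ≤ b (E j) := hscale.le (Nat.succ_le_of_lt hEE)
        have h7 : b (E i + 1) = Gr * b (E i) := by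
          simp only [hb]; ring
        rwa [h7] at h6
      have h5' : (Gr : ℝ) * b (E i) ≤ b (E j) := by exact_mod_cast h5
      have h1b : (1 : ℝ) ≤ b (E i) := by exact_mod_cast hscale.pos (E i)
      have w1' : ((x (i + 1) - x i : ℤ) : ℝ) ≤ 2 * b (E i) := by exact_mod_cast w1
      have w2' : (b (E j) : ℝ) ≤ 2 * ((x (j + 1) - x j : ℤ) : ℝ) := by exact_mod_cast w2
      obtain ⟨bi, hbi⟩ : ∃ bi : ℝ, bi = b (E i) := ⟨_, rfl⟩
      obtain ⟨xi, hxi⟩ : ∃ xi : ℝ, xi = ((x (i + 1) - x i : ℤ) : ℝ) := ⟨_, rfl⟩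
      obtain ⟨xj, hxj⟩ : ∃ xj : ℝ, xj = ((x (j + 1) - x j : ℤ) : ℝ) := ⟨_, rfl⟩
      obtain ⟨V, hV⟩ : ∃ V : ℝ, V = U * Real.log X := ⟨_, rfl⟩
      have hV0 : 0 < V := by rw [hV]; positivity
      rw [← hbi] at h5' h1b w1'
      rw [← hxi] at w1' g1
      rw [← hxj] at w2' g2
      have g1' : gp' (m + i) ≤ V * (2 * bi + 1 / 4) := by
        unfold gp'
        have : V * xi ≤ V * (2 * bi) := mul_le_mul_of_nonneg_left w1' hV0.le
        have e1 : U * xi * Real.log X = V * xi := by rw [hV]; ring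
        have e2 : ε * Real.log X = V * (1 / 4) := by rw [hε, hV]; ring
        rw [e1, e2] at g1
        linarith
      have g2' : V * ((4 * K + 4) * bi - 1 / 4) ≤ gp' (m + j) := by
        unfold gp'
        have h6 : (4 * K + 4) * bi ≤ xj := by
          have : (8 * K + 8) * bi ≤ Gr * bi := mul_le_mul_of_nonneg_right hGrK (by linarith)
          linarith
        have h7 : V * ((4 * K + 4) * bi) ≤ V * xj := mul_le_mul_of_nonneg_left h6 hV0.le
        have e1 : U * xj * Real.log X = V * xj := by rw [hV]; ring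
        have e2 : ε * Real.log X = V * (1 / 4) := by rw [hε, hV]; ring
        rw [e1, e2] at g2
        linarith
      calc K * gp' (m + i) ≤ K * (V * (2 * bi + 1 / 4)) :=
            mul_le_mul_of_nonneg_left g1' (by linarith)
        _ = V * (K * (2 * bi + 1 / 4)) := by ring
        _ ≤ V * ((4 * K + 4) * bi - 1 / 4) := by
            apply mul_le_mul_of_nonneg_left _ hV0.le
            nlinarith
        _ ≤ _ := g2')
  refine ⟨c, hc, N₀, fun N hN => ?_⟩
  obtain ⟨X, -, h⟩ := hmain N hN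
  refine h.trans (le_of_eq ?_)
  congr 2
  exact Finset.filter_congr_decidable _ _ _

open Classical in
theorem forced_idx {k : ℕ} {σ : ℕ → ℕ} (hF : Forces 40 k σ) (K : ℝ) :
    ∃ c : ℝ, 0 < c ∧ ∃ N₀ : ℕ, ∀ N : ℕ, N₀ ≤ N →
      c * N ≤ (((range N).filter (fun m => (∀ i < k, K * Real.log (P m) ≤ gp' (m + i)) ∧
        ∀ i j, i < k → j < k → σ i < σ j → K * gp' (m + i) ≤ gp' (m + j))).card : ℝ) := by
  obtain ⟨c, hc, N₀, h⟩ := forced_idx1 hF (max K 1) (le_max_right _ _)
  refine ⟨c, hc, N₀, fun N hN => (h N hN).trans ?_⟩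
  apply Nat.cast_le.2
  apply card_le_card
  intro m hm
  rw [mem_filter] at hm ⊢
  have hgp : ∀ l, 0 ≤ gp' l := by
    intro l
    unfold gp'
    have : P l ≤ P (l + 1) := (Nat.nth_strictMono Nat.infinite_setOfPred_prime).monotone (by omega)
    have : (P l : ℝ) ≤ P (l + 1) := by exact_mod_cast this
    linarith
  refine ⟨hm.1, fun i hi => ?_, fun i j hi hj hij => ?_⟩
  · exact (mul_le_mul_of_nonneg_right (le_max_left _ _) (Real.log_natCast_nonneg _)).trans
      (hm.2.1 i hi)
  · exact (mul_le_mul_of_nonneg_right (le_max_left _ _) (hgp _)).trans (hm.2.2 i j hi hj hij)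

end Pool.Agent.E8helper24.PG
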