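import Pool.Agent.H361R2.PP.Iface4
import Pool.Agent.E8helper24.PG.Cls
import Pool.Agent.TH779.Ord.Main

/-! From a good integer to a block of consecutive primes. -/

set_option autoImplicit false

open Finset

namespace Pool.Agent.E8helper24.PG

open Pool.Agent.H361R2.PP Pool.Agent.TH779.Ord

open Classical in
/-- the positions of the clusters with a prime -/
noncomputable def hits {k : ℕ} (pos : Fin k → ℤ) (α : Fin k → ℝ) (ε Λ : ℝ) (X n : ℕ) : Finset ℤ :=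
  (univ.filter (fun i => 1 = cn (α i) ε Λ X n)).image pos

open Classical in
theorem window_idx {k : ℕ} (pos : Fin k → ℤ) (hpos : Function.Injective pos) (U ε Λ : ℝ) (z₀ : ℤ)
    (hε : 0 < ε) (hεU : 2 * ε ≤ U) (X n : ℕ) (hX : 2 ≤ X)
    (h1 : ∀ i, cn (U * ((pos i + z₀ : ℤ) : ℝ)) ε Λ X n ≤ 1)
    (h2 : ∀ a ∈ Icc 1 ⌊Λ * Real.log X⌋₊, (n + a).Prime →
      ∃ i, CL (U * ((pos i + z₀ : ℤ) : ℝ)) ε (Real.log X) a)
    (κ : ℕ) (x : ℕ → ℤ) (hx : ∀ i j, i < j → j ≤ κ → x i < x j)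
    (hxP : ∀ i ≤ κ, x i ∈ hits pos (fun i => U * ((pos i + z₀ : ℤ) : ℝ)) ε Λ X n)
    (hxc : ∀ y ∈ hits pos (fun i => U * ((pos i + z₀ : ℤ) : ℝ)) ε Λ X n, x 0 ≤ y → y ≤ x κ →
      ∃ i ≤ κ, y = x i) :
    ∃ m a : ℕ, a ∈ Icc 1 ⌊Λ * Real.log X⌋₊ ∧ P m = n + a ∧
      (∀ i ≤ κ, (P (m + i) : ℝ) ≤ n + Λ * Real.log X) ∧
      ∀ i < κ, |(P (m + i + 1) : ℝ) - P (m + i) - U * ((x (i + 1) - x i : ℤ) : ℝ) * Real.log X| ≤
        ε * Real.log X := by
  have hL : 0 < Real.log X := Real.log_pos (by exact_mod_cast hX)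
  set L := Real.log X with hLd
  set N := ⌊Λ * L⌋₊ with hN
  have hU : 0 < U := by linarith
  -- the clusters of the window
  have hc : ∀ i, ∃ c : Fin k, i ≤ κ → (pos c = x i ∧ 1 = cn (U * ((pos c + z₀ : ℤ) : ℝ)) ε Λ X n) := by
    intro i
    by_cases hi : i ≤ κ
    · have := hxP i hi
      unfold hits at this
      rw [mem_image] at this
      obtain ⟨c, hc, hcx⟩ := this
      rw [mem_filter] at hc
      exact ⟨c, fun _ => ⟨hcx, hc.2⟩⟩
    · have := hxP 0 (Nat.zero_le _)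
      unfold hits at this
      rw [mem_image] at this
      obtain ⟨c, -, -⟩ := this
      exact ⟨c, fun h => absurd h hi⟩
  choose c hc using hc
  -- the primes
  have hr : ∀ i, ∃ r : ℕ, i ≤ κ → (r ∈ Icc 1 N ∧ CL (U * ((pos (c i) + z₀ : ℤ) : ℝ)) ε L r ∧
      (n + r).Prime) := by
    intro i
    by_cases hi : i ≤ κ
    · have h3 := (hc i hi).2
      unfold cn at h3
      obtain ⟨r, hr⟩ := card_pos.1 (by rw [← h3]; exact Nat.one_pos)
      rw [mem_filter] at hr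
      exact ⟨r, fun _ => hr⟩
    · exact ⟨0, fun h => absurd h hi⟩
  choose r hr using hr
  -- order of the primes in different clusters
  have hord : ∀ (i j : Fin k) (a b : ℕ), pos i < pos j → CL (U * ((pos i + z₀ : ℤ) : ℝ)) ε L a →
      CL (U * ((pos j + z₀ : ℤ) : ℝ)) ε L b → a < b := by
    intro i j a b hij ha hb
    have h3 : ((pos i + z₀ : ℤ) : ℝ) + 1 ≤ ((pos j + z₀ : ℤ) : ℝ) := by
      exact_mod_cast (by omega : pos i + z₀ + 1 ≤ pos j + z₀)
    have h4 : U * (((pos i + z₀ : ℤ) : ℝ) + 1) ≤ U * ((pos j + z₀ : ℤ) : ℝ) :=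
      mul_le_mul_of_nonneg_left h3 hU.le
    have h5 : (U * ((pos i + z₀ : ℤ) : ℝ) + ε) * L ≤ (U * ((pos j + z₀ : ℤ) : ℝ)) * L :=
      mul_le_mul_of_nonneg_right (by linarith) hL.le
    have h6 : (a : ℝ) < b := lt_of_le_of_lt (ha.2.trans h5) hb.1
    exact_mod_cast h6
  -- uniqueness
  have huniq : ∀ (i : Fin k) (a b : ℕ), a ∈ Icc 1 N → b ∈ Icc 1 N →
      CL (U * ((pos i + z₀ : ℤ) : ℝ)) ε L a → CL (U * ((pos i + z₀ : ℤ) : ℝ)) ε L b →
      (n + a).Prime → (n + b).Prime → a = b := by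
    intro i a b ha hb ha2 hb2 ha3 hb3
    have h3 := h1 i
    unfold cn at h3
    exact card_le_one.1 h3 a (mem_filter.2 ⟨ha, ha2, ha3⟩) b (mem_filter.2 ⟨hb, hb2, hb3⟩)
  have hrlt : ∀ i j, i < j → j ≤ κ → r i < r j := by
    intro i j hij hj
    refine hord (c i) (c j) _ _ ?_ (hr i (by omega)).2.1 (hr j hj).2.1
    rw [(hc i (by omega)).1, (hc j hj).1]
    exact hx i j hij hj
  obtain ⟨m, hm⟩ := nth_block n κ r hrlt (fun i hi => (hr i hi).2.2) (by
    intro y hy1 hy2 hy3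
    have hyN : y ∈ Icc 1 N := by
      rw [mem_Icc]
      have h3 := mem_Icc.1 (hr 0 (Nat.zero_le _)).1
      have h4 := mem_Icc.1 (hr κ le_rfl).1
      omega
    obtain ⟨i, hi⟩ := h2 y hyN hy3
    have hhit : 1 = cn (U * ((pos i + z₀ : ℤ) : ℝ)) ε Λ X n := by
      have h3 := h1 i
      have h4 : 0 < cn (U * ((pos i + z₀ : ℤ) : ℝ)) ε Λ X n := by
        unfold cn
        exact card_pos.2 ⟨y, mem_filter.2 ⟨hyN, hi, hy3⟩⟩
      omega
    have hP : pos i ∈ hits pos (fun i => U * ((pos i + z₀ : ℤ) : ℝ)) ε Λ X n := by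
      unfold hits
      exact mem_image_of_mem _ (mem_filter.2 ⟨mem_univ _, hhit⟩)
    have h5 : x 0 ≤ pos i := by
      by_contra hcon
      push Not at hcon
      rw [← (hc 0 (Nat.zero_le _)).1] at hcon
      have := hord i (c 0) _ _ hcon hi (hr 0 (Nat.zero_le _)).2.1
      omega
    have h6 : pos i ≤ x κ := by
      by_contra hcon
      push Not at hcon
      rw [← (hc κ le_rfl).1] at hcon
      have := hord (c κ) i _ _ hcon (hr κ le_rfl).2.1 hi
      omega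
    obtain ⟨l, hl, hle⟩ := hxc _ hP h5 h6
    refine ⟨l, hl, ?_⟩
    have h7 : c l = i := hpos (by rw [(hc l hl).1, hle])
    have h8 := (hr l hl)
    rw [h7] at h8
    exact huniq i _ _ hyN h8.1 hi h8.2.1 hy3 h8.2.2)
  have hm' : ∀ i ≤ κ, P (m + i) = n + r i := hm
  refine ⟨m, r 0, (hr 0 (Nat.zero_le _)).1, hm' 0 (Nat.zero_le _), ?_, ?_⟩
  · intro i hi
    rw [hm' i hi]
    have h3 := (mem_Icc.1 (hr i hi).1).2
    have h4 := (mem_Icc.1 (hr i hi).1).1
    have h5 : 0 ≤ Λ * L := by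
      by_contra hcon
      rw [hN, Nat.floor_of_nonpos (not_le.1 hcon).le] at h3
      omega
    have h6 : (r i : ℝ) ≤ Λ * L := (Nat.le_floor_iff h5).1 h3
    push_cast
    linarith
  · intro i hi
    have e1 := hm' (i + 1) hi
    rw [← add_assoc] at e1
    rw [e1, hm' i hi.le]
    push_cast
    have a1 := (hr i hi.le).2.1
    have a2 := (hr (i + 1) hi).2.1
    unfold CL at a1 a2
    rw [(hc i hi.le).1] at a1
    rw [(hc (i + 1) hi).1] at a2
    push_cast at a1 a2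
    rw [abs_le]
    constructor
    · nlinarith [a1.1, a1.2, a2.1, a2.2]
    · nlinarith [a1.1, a1.2, a2.1, a2.2]

end Pool.Agent.E8helper24.PG
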