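import Pool.Agent.E8helper24.PG.Main
import Pool.Agent.E8helper24.PG.Win
import Pool.Agent.H361R2.PP.Asm3
import Pool.Agent.H403R2.PP.Tra

/-! The positive proportion theorem for many classes of clusters, and its transfer to indices. -/

set_option autoImplicit false

open Finset

namespace Pool.Agent.E8helper24.PG

open Pool.Agent.H361R2.PP Pool.Agent.TH779.Ord

theorem ppg : Ppg :=
  ppg_of sm Pool.Agent.H708R2.types (Pool.Agent.H488R2.ggtypes Pool.Agent.H325R2.wtx)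
    Pool.Agent.H633R2.ggSharp (Pool.Agent.H488R2.mer Pool.Agent.H325R2.wtx)
    (Pool.Agent.H488R2.mrv Pool.Agent.H325R2.wtx) Pool.Agent.H363R2.PPCnt.cnt
    Pool.Agent.H325R2.pnt Pool.Agent.H872R2.PPCol.col Pool.Agent.H872R2.PPCol.cob
    Pool.Agent.H433R2.PPMni.mni Pool.Agent.H909R2.cs_holds
    Pool.Agent.H325R2.wtx

theorem P_inj {i j : ℕ} (h : P i = P j) : i = j :=
  (Nat.nth_strictMono Nat.infinite_setOfPred_prime).injective h

open Classical in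
/-- transfer to indices; the property `R X j` may depend on the dyadic scale `X` -/
theorem idx {k T K : ℕ} {lam : ℝ} (hT : 1 ≤ T) (hKT : 8 * T ≤ K) (hlam : 1 ≤ lam)
    (cl : Fin k → Fin T) (hcl : ∀ g, (univ.filter (fun i => cl i = g)).card = K)
    (α : Fin k → ℝ) (ε Λ : ℝ) (hε : 0 < ε) (hΛ : 0 < Λ) (hα : ∀ i, 0 ≤ α i ∧ α i + ε ≤ Λ)
    (hdis : ∀ i j, i ≠ j → α i + ε ≤ α j ∨ α j + ε ≤ α i)
    (R : ℕ → ℕ → Prop) (X₁ : ℕ)
    (hR : ∀ X, X₁ ≤ X → ∀ n, X ≤ n → n < 2 * X → GoodG lam cl α ε Λ X n →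
      ∃ m a, a ∈ Icc 1 ⌊Λ * Real.log X⌋₊ ∧ P m = n + a ∧ R X m) :
    ∃ c : ℝ, 0 < c ∧ ∃ N₀ : ℕ, ∀ N : ℕ, N₀ ≤ N → ∃ X, X₁ ≤ X ∧
      c * N ≤ (((range N).filter (fun j => R X j)).card : ℝ) := by
  obtain ⟨c, hc, X₀, h⟩ := ppg k T K lam hT hKT hlam cl hcl α ε Λ hε hΛ hα hdis
  obtain ⟨c', hc', htra⟩ := Pool.Agent.H403R2.PP.tra c Λ hc hΛ
  obtain ⟨N₀, hN₀⟩ := htra (max X₀ X₁)
  refine ⟨c', hc', N₀, fun N hN => ?_⟩
  obtain ⟨X, hX, hX2⟩ := hN₀ N hN
  refine ⟨X, (le_max_right _ _).trans hX, ?_⟩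
  have h1 := hX2 (fun q => ∃ m, P m = q ∧ R X m) (by
    refine (h X ((le_max_left _ _).trans hX)).trans ?_
    apply Nat.cast_le.2
    apply card_le_card
    intro n hn
    rw [mem_filter, mem_Ico] at hn ⊢
    obtain ⟨m, a, ha, hm, hRm⟩ := hR X ((le_max_right _ _).trans hX) n hn.1.1 hn.1.2 hn.2
    refine ⟨hn.1, a, ha, ?_, m, hm, hRm⟩
    rw [← hm]
    exact Nat.prime_nth_prime m)
  refine h1.trans ?_
  apply Nat.cast_le.2
  apply card_le_card
  intro j hj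
  rw [mem_filter] at hj ⊢
  obtain ⟨hj1, m, hm, hRm⟩ := hj
  rw [P_inj hm] at hRm
  exact ⟨hj1, hRm⟩

open Classical in
/-- pigeonhole principle -/
theorem pigeon {ι : Type*} [Fintype ι] [Nonempty ι] {c : ℝ} {N : ℕ} (R : ℕ → Prop)
    (R' : ι → ℕ → Prop) (hRR : ∀ j, R j → ∃ π, R' π j)
    (h : c * N ≤ (((range N).filter R).card : ℝ)) :
    ∃ π, c / Fintype.card ι * N ≤ (((range N).filter (R' π)).card : ℝ) := by
  have hι : (0 : ℝ) < Fintype.card ι := by exact_mod_cast Fintype.card_pos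
  by_contra hcon
  push Not at hcon
  have h1 : (((range N).filter R).card : ℝ) ≤ ∑ π : ι, (((range N).filter (R' π)).card : ℝ) := by
    have h2 : (range N).filter R ⊆ univ.biUnion (fun π => (range N).filter (R' π)) := by
      intro j hj
      rw [mem_filter] at hj
      obtain ⟨π, hπ⟩ := hRR j hj.2
      rw [mem_biUnion]
      exact ⟨π, mem_univ _, mem_filter.2 ⟨hj.1, hπ⟩⟩
    have h3 := (card_le_card h2).trans card_biUnion_le
    exact_mod_cast h3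
  have h2 : ∑ π : ι, (((range N).filter (R' π)).card : ℝ) < ∑ _π : ι, c / Fintype.card ι * N :=
    sum_lt_sum_of_nonempty univ_nonempty fun π _ => hcon π
  rw [sum_const, card_univ, nsmul_eq_mul] at h2
  have h3 : (Fintype.card ι : ℝ) * (c / Fintype.card ι * N) = c * N := by
    field_simp
  linarith

/-- the primes following a good integer are of the same logarithmic size -/
theorem log_size {Λ : ℝ} (hΛ : 0 < Λ) : ∃ X₁ : ℕ, 3 ≤ X₁ ∧ ∀ X n : ℕ, X₁ ≤ X → n < 2 * X →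
    ∀ p : ℕ, 0 < p → (p : ℝ) ≤ n + Λ * Real.log X → Real.log p ≤ 2 * Real.log X := by
  have h1 : ∀ᶠ x : ℝ in Filter.atTop, ‖Real.log x‖ ≤ 1 / Λ * ‖x‖ :=
    Real.isLittleO_log_id_atTop.bound (by positivity)
  obtain ⟨x₀, hx₀⟩ := Filter.eventually_atTop.1 h1
  refine ⟨max 3 ⌈x₀⌉₊, le_max_left _ _, fun X n hX hn p hp hpn => ?_⟩
  have hX3 : 3 ≤ X := (le_max_left _ _).trans hX
  have hX0 : x₀ ≤ X := (Nat.le_ceil _).trans (by exact_mod_cast (le_max_right _ _).trans hX)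
  have h2 := hx₀ X hX0
  have hX3' : (3 : ℝ) ≤ X := by exact_mod_cast hX3
  have hL : 0 ≤ Real.log (X : ℝ) := Real.log_natCast_nonneg X
  rw [Real.norm_eq_abs, Real.norm_eq_abs, abs_of_nonneg hL, abs_of_nonneg (by linarith)] at h2
  have h3 : Λ * Real.log X ≤ X := by
    calc Λ * Real.log X ≤ Λ * (1 / Λ * X) := mul_le_mul_of_nonneg_left h2 hΛ.le
      _ = X := by field_simp
  have h4 : (n : ℝ) ≤ 2 * X := by exact_mod_cast hn.le
  have h5 : (p : ℝ) ≤ (X : ℝ) ^ 2 := by nlinarith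
  have hp0 : (0 : ℝ) < p := by exact_mod_cast hp
  calc Real.log p ≤ Real.log ((X : ℝ) ^ 2) := Real.log_le_log hp0 h5
    _ = 2 * Real.log X := by rw [Real.log_pow]; norm_num

end Pool.Agent.E8helper24.PG
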