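import Pool.Agent.E8helper24.PG.Fin
import Pool.Agent.TH779.Ord.Asym

/-! Many orders of consecutive gaps, each for a positive proportion of the indices. -/

set_option autoImplicit false

open Finset

namespace Pool.Agent.E8helper24.PG

open Pool.Agent.H361R2.PP Pool.Agent.TH779.Ord

theorem card_zero_inst {α : Type*} (s : Finset α) (p : α → Prop) (i : DecidablePred p)
    (h : ∀ a ∈ s, ¬ p a) : (@Finset.filter α p i s).card = 0 :=
  card_eq_zero.2 (filter_eq_empty_iff.2 h)

/-- the gaps following the prime number `m` are long and ordered like `π` -/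
def Qo {k : ℕ} (K₀ : ℝ) (π : Equiv.Perm (Fin k)) (m : ℕ) : Prop :=
  (∀ i < k, K₀ * Real.log (P m) ≤ gp' (m + i)) ∧
    ∀ u v : Fin k, π u < π v ↔ gp' (m + u) < gp' (m + v)

/-- `π` and `σ` have a common pattern of length `c` -/
def Cmn {k N : ℕ} (c : ℕ) (σ : Equiv.Perm (Fin N)) (π : Equiv.Perm (Fin k)) : Prop :=
  ∃ (x : Fin c → Fin k) (y : Fin c → Fin N),
    StrictMono x ∧ StrictMono y ∧ ∀ i j, σ (y i) < σ (y j) ↔ π (x i) < π (x j)

open Classical in
theorem perm_idx1 {k c N₁ : ℕ} {lam : ℝ} (hlam : 1 ≤ lam) (hk : 1 ≤ k)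
    (hc : (c : ℝ) ≤ k - 2 * k / lam) (hN : (k : ℝ) + 1 ≤ ((N₁ + 1 : ℕ) : ℝ) / (40 * lam))
    (K₀ : ℝ) (hK₀ : 1 ≤ K₀) (σ : Equiv.Perm (Fin N₁)) :
    ∃ c' : ℝ, 0 < c' ∧ ∃ N₀ : ℕ, ∀ N : ℕ, N₀ ≤ N → ∃ π : Equiv.Perm (Fin k), Cmn c σ π ∧
      c' * N ≤ (((range N).filter (fun m => Qo K₀ π m)).card : ℝ) := by
  obtain ⟨T, hTd⟩ : ∃ T, T = N₁ + 1 := ⟨_, rfl⟩
  obtain ⟨K, hKd⟩ : ∃ K, K = 8 * T := ⟨_, rfl⟩
  have hT1 : 1 ≤ T := by omega
  have hK1 : 1 ≤ K := by omega
  set s : ℕ → ℕ := fun l => if h : l < N₁ then (σ ⟨l, h⟩ : ℕ) else 0 with hs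
  have hs' : ∀ (l : ℕ) (h : l < N₁), s l = (σ ⟨l, h⟩ : ℕ) := by
    intro l h
    rw [hs]
    simp only [h, dite_true]
  set M := T * K with hM
  set B := 2 ^ M + N₁ + 4 with hB
  have hmono : StrictMono (hh s B K) := hh_strictMono s B K
  set pos : Fin M → ℤ := fun i => (hh s B K i : ℤ) with hposd
  have hpos : Function.Injective pos := by
    intro i j hij
    have h0 : (hh s B K i : ℤ) = (hh s B K j : ℤ) := hij
    have h1 : hh s B K i = hh s B K j := by exact_mod_cast h0
    exact Fin.ext (hmono.injective h1)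
  have hclT : ∀ i : Fin M, (i : ℕ) / K < T := fun i =>
    (Nat.div_lt_iff_lt_mul (by omega)).2 i.2
  set cl : Fin M → Fin T := fun i => ⟨(i : ℕ) / K, hclT i⟩ with hcldef
  have hcl : ∀ g, (univ.filter (fun i => cl i = g)).card = K := by
    intro g
    have h1 : (univ.filter (fun i => cl i = g)).card = (Ico ((g : ℕ) * K) (g * K + K)).card := by
      apply card_bij (fun (i : Fin M) _ => (i : ℕ))
      · intro i hi
        rw [mem_filter] at hi
        have h2 : (i : ℕ) / K = g := congrArg Fin.val hi.2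
        rw [mem_Ico]
        have h3 := Nat.div_add_mod (i : ℕ) K
        rw [h2] at h3
        have h4 := Nat.mod_lt (i : ℕ) (show 0 < K by omega)
        rw [mul_comm] at h3
        omega
      · intro i _ j _ h
        exact Fin.ext h
      · intro x hx
        rw [mem_Ico] at hx
        have h2 : (g : ℕ) * K + K ≤ T * K := by
          have := Nat.mul_le_mul_right K (Nat.succ_le_of_lt g.2)
          rw [Nat.succ_mul] at this
          exact this
        refine ⟨⟨x, by omega⟩, ?_, rfl⟩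
        rw [mem_filter]
        refine ⟨mem_univ _, ?_⟩
        rw [hcldef]
        apply Fin.ext
        simp only
        exact Nat.div_eq_of_lt_le hx.1 (by rw [Nat.succ_mul]; exact hx.2)
    rw [h1, Nat.card_Ico]
    omega
  obtain ⟨U, hU⟩ : ∃ U : ℝ, U = 16 * K₀ := ⟨_, rfl⟩
  obtain ⟨ε, hε⟩ : ∃ ε : ℝ, ε = U / 4 := ⟨_, rfl⟩
  have hU0 : 0 < U := by rw [hU]; linarith
  have hε0 : 0 < ε := by rw [hε]; linarith
  obtain ⟨Λ, hΛd⟩ : ∃ Λ : ℝ, Λ = U * ((hh s B K M : ℝ) + 1) := ⟨_, rfl⟩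
  have hΛ : 0 < Λ := by rw [hΛd]; positivity
  set α : Fin M → ℝ := fun i => U * ((pos i + 0 : ℤ) : ℝ) with hαd
  have hα : ∀ i, 0 ≤ α i ∧ α i + ε ≤ Λ := by
    intro i
    have h2 : (0 : ℝ) ≤ ((pos i + 0 : ℤ) : ℝ) := by
      have : (0 : ℤ) ≤ pos i + 0 := by
        rw [add_zero]
        show (0 : ℤ) ≤ (hh s B K i : ℤ)
        exact Int.natCast_nonneg _
      exact_mod_cast this
    have h3 : ((pos i + 0 : ℤ) : ℝ) ≤ (hh s B K M : ℝ) := by
      have h4 : hh s B K i ≤ hh s B K M := hmono.monotone i.2.le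
      have h5 : pos i + 0 ≤ (hh s B K M : ℤ) := by
        rw [add_zero]
        show (hh s B K i : ℤ) ≤ (hh s B K M : ℤ)
        exact_mod_cast h4
      exact_mod_cast h5
    refine ⟨mul_nonneg hU0.le h2, ?_⟩
    have h4 : U * ((pos i + 0 : ℤ) : ℝ) ≤ U * (hh s B K M : ℝ) := mul_le_mul_of_nonneg_left h3 hU0.le
    rw [hΛd, hε]
    simp only [hαd]
    linarith
  have hdis : ∀ i j, i ≠ j → α i + ε ≤ α j ∨ α j + ε ≤ α i := by
    intro i j hij
    have key : ∀ i j, pos i < pos j → α i + ε ≤ α j := by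
      intro i j h
      have h3 : ((pos i + 0 : ℤ) : ℝ) + 1 ≤ ((pos j + 0 : ℤ) : ℝ) := by
        exact_mod_cast (by omega : pos i + 0 + 1 ≤ pos j + 0)
      have h4 := mul_le_mul_of_nonneg_left h3 hU0.le
      simp only [hαd]
      linarith
    rcases lt_trichotomy (pos i) (pos j) with h | h | h
    · exact Or.inl (key i j h)
    · exact absurd (hpos h) hij
    · exact Or.inr (key j i h)
  obtain ⟨X₁, hX₁3, hsize⟩ := log_size hΛ
  have hBB : 2 ^ M ≤ B := by rw [hB, add_assoc]; exact Nat.le_add_right _ _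
  have hB4 : 4 ≤ B := by rw [hB]; exact Nat.le_add_left _ _
  have hBN : N₁ ≤ B := by rw [hB]; exact (Nat.le_add_left N₁ (2 ^ M)).trans (Nat.le_add_right _ _)
  obtain ⟨c₂, hc₂, N₀, hmain⟩ := idx (lam := lam) hT1 (le_of_eq hKd.symm) hlam cl hcl α ε Λ hε0 hΛ hα hdis
    (fun _ m => ∃ π : {π : Equiv.Perm (Fin k) // Cmn c σ π}, Qo K₀ π.1 m) X₁ (by
    intro X hX n hn1 hn2 hgood
    have hX3 : 3 ≤ X := hX₁3.trans hX
    obtain ⟨hg1, hg2, hg3⟩ := hgood
    have hL : 0 < Real.log X := Real.log_pos (by exact_mod_cast (by omega : 1 < X))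
    -- the numbers of the clusters with a prime
    set J : Finset ℕ := (univ.filter (fun i : Fin M => 1 = cn (α i) ε Λ X n)).image (fun i : Fin M => (i : ℕ))
      with hJ
    have hJM : ∀ x ∈ J, x < T * K := by
      intro x hx
      rw [hJ, mem_image] at hx
      obtain ⟨i, -, rfl⟩ := hx
      exact i.2
    have hΦ : (k : ℝ) + 1 ≤ ∑ g ∈ range T, fn lam (J.filter (fun x => x / K = g)).card := by
      rw [← Fin.sum_univ_eq_sum_range (fun g => fn lam (J.filter (fun x => x / K = g)).card) T]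
      have h1 : (k : ℝ) + 1 ≤ (T : ℝ) / (40 * lam) := by rw [hTd]; exact hN
      refine (h1.trans hg1).trans (le_of_eq ?_)
      refine sum_congr rfl fun g _ => ?_
      congr 1
      symm
      have h2 : J.filter (fun x => x / K = (g : ℕ)) =
          (univ.filter (fun i : Fin M => cl i = g ∧ 1 = cn (α i) ε Λ X n)).image (fun i : Fin M => (i : ℕ)) := by
        ext x
        simp only [hJ, mem_filter, mem_image, mem_univ, true_and]
        constructor
        · rintro ⟨⟨i, hi, rfl⟩, hx⟩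
          exact ⟨i, ⟨Fin.ext hx, hi⟩, rfl⟩
        · rintro ⟨i, ⟨hi1, hi2⟩, rfl⟩
          exact ⟨⟨i, hi2, rfl⟩, congrArg Fin.val hi1⟩
      rw [h2, card_image_of_injective _ Fin.val_injective]
    obtain ⟨e₀, he₀, π, hπ, x, y, hx, hy, hxy⟩ := block hK1 hTd hlam hk hc J hJM hΦ σ s hs' B
      hBB hB4 hBN
    obtain ⟨m, a, ha1, ha2, ha3, ha4⟩ := window_idx pos hpos U ε Λ 0 hε0 (by rw [hε]; linarith) X n
      (by omega) hg2 hg3 k (fun i => (hh s B K (el J (e₀ + i)) : ℤ)) (by
        intro i j hij hj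
        have := hmono (el_lt J (by omega : e₀ + i < e₀ + j) (by omega))
        exact_mod_cast this) (by
        intro i hi
        have h1 := el_mem J (e := e₀ + i) (by omega)
        rw [hJ, mem_image] at h1
        obtain ⟨l, hl, hle⟩ := h1
        unfold hits
        rw [mem_image]
        refine ⟨l, hl, ?_⟩
        show ((hh s B K l : ℕ) : ℤ) = _
        rw [hle]) (by
        intro z hz hz1 hz2
        unfold hits at hz
        rw [mem_image] at hz
        obtain ⟨l, hl, rfl⟩ := hz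
        have hlJ : (l : ℕ) ∈ J := by
          rw [hJ, mem_image]
          exact ⟨l, hl, rfl⟩
        obtain ⟨e, he, hel⟩ := el_surj J hlJ
        have hzl : pos l = (hh s B K l : ℤ) := rfl
        rw [hzl] at hz1 hz2
        have hz1' : hh s B K (el J (e₀ + 0)) ≤ hh s B K l := by exact_mod_cast hz1
        have hz2' : hh s B K l ≤ hh s B K (el J (e₀ + k)) := by exact_mod_cast hz2
        rw [← hel] at hz1' hz2'
        have h1 : e₀ ≤ e := by
          by_contra hcon
          push Not at hcon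
          have := hmono (el_lt J (show e < e₀ + 0 by omega) (by omega))
          omega
        have h2 : e ≤ e₀ + k := by
          by_contra hcon
          push Not at hcon
          have := hmono (el_lt J hcon he)
          omega
        refine ⟨e - e₀, by omega, ?_⟩
        show ((hh s B K l : ℕ) : ℤ) = (hh s B K (el J (e₀ + (e - e₀))) : ℤ)
        rw [Nat.add_sub_cancel' h1, hel])
    refine ⟨m, a, ha1, ha2, ⟨π, x, y, hx, hy, hxy⟩, ?_, ?_⟩
    · intro i hi
      have h5 := (abs_le.1 (ha4 i hi)).1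
      have h6 : (1 : ℝ) ≤ (((hh s B K (el J (e₀ + (i + 1))) : ℤ) - (hh s B K (el J (e₀ + i)) : ℤ) : ℤ) : ℝ) := by
        have := hmono (el_lt J (by omega : e₀ + i < e₀ + (i + 1)) (by omega))
        exact_mod_cast (by omega : (1 : ℤ) ≤ (hh s B K (el J (e₀ + (i + 1))) : ℤ) - (hh s B K (el J (e₀ + i)) : ℤ))
      have h7 := mul_le_mul_of_nonneg_right (mul_le_mul_of_nonneg_left h6 hU0.le) hL.le
      have h8 : Real.log (P m) ≤ 2 * Real.log X := by
        apply hsize X n hX hn2 _ (Nat.prime_nth_prime m).pos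
        have := ha3 0 (Nat.zero_le _)
        rwa [Nat.add_zero] at this
      have h9 : K₀ * Real.log (P m) ≤ K₀ * (2 * Real.log X) :=
        mul_le_mul_of_nonneg_left h8 (by linarith)
      unfold gp'
      have h10 : U * 1 * Real.log X = 16 * (K₀ * Real.log X) := by rw [hU]; ring
      have h11 : 0 ≤ K₀ * Real.log X := by positivity
      have h12 : ε * Real.log X = U * 1 * Real.log X / 4 := by rw [hε]; ring
      linarith
    · -- the order
      have hgap : ∀ u : Fin k, |gp' (m + u) - U * (gp s B K J (e₀ + u) : ℝ) * Real.log X| ≤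
          ε * Real.log X := by
        intro u
        have h5 := ha4 u u.2
        have h6 : (((hh s B K (el J (e₀ + (u + 1))) : ℤ) - (hh s B K (el J (e₀ + u)) : ℤ) : ℤ) : ℝ) =
            (gp s B K J (e₀ + u) : ℝ) := by
          unfold gp
          have h7 := hmono (el_lt J (by omega : e₀ + (u : ℕ) < e₀ + (u + 1)) (by have := u.2; omega))
          rw [← add_assoc] at h7 ⊢
          rw [Nat.cast_sub h7.le]
          push_cast
          ring
        have h7 : gp' (m + u) = (P (m + u + 1) : ℝ) - P (m + u) := rfl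
        rw [h7, ← h6]
        exact h5
      have hlt : ∀ u v : Fin k, gp s B K J (e₀ + u) < gp s B K J (e₀ + v) →
          gp' (m + u) < gp' (m + v) := by
        intro u v huv
        have h5 := (abs_le.1 (hgap u)).2
        have h6 := (abs_le.1 (hgap v)).1
        have h7 : (gp s B K J (e₀ + u) : ℝ) + 1 ≤ gp s B K J (e₀ + v) := by exact_mod_cast huv
        have h8 := mul_le_mul_of_nonneg_right (mul_le_mul_of_nonneg_left h7 hU0.le) hL.le
        have h9 : ε * Real.log X = U * Real.log X / 4 := by rw [hε]; ring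
        have h10 : 0 < U * Real.log X := by positivity
        nlinarith
      intro u v
      constructor
      · intro h
        exact hlt u v ((hπ u v).1 h)
      · intro h
        by_contra hcon
        rcases lt_trichotomy (π u) (π v) with h1 | h1 | h1
        · exact hcon h1
        · have : u = v := π.injective h1
          rw [this] at h
          exact lt_irrefl _ h
        · have := hlt v u ((hπ v u).1 h1)
          linarith)
  -- pigeonhole
  by_cases hne : Nonempty {π : Equiv.Perm (Fin k) // Cmn c σ π}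
  · refine ⟨c₂ / Fintype.card {π : Equiv.Perm (Fin k) // Cmn c σ π}, ?_, N₀, fun N hN' => ?_⟩
    · have : 0 < Fintype.card {π : Equiv.Perm (Fin k) // Cmn c σ π} := Fintype.card_pos
      positivity
    · obtain ⟨X, -, h⟩ := hmain N hN'
      obtain ⟨π, hπ⟩ := pigeon (fun m => ∃ π : {π : Equiv.Perm (Fin k) // Cmn c σ π}, Qo K₀ π.1 m)
        (fun (π : {π : Equiv.Perm (Fin k) // Cmn c σ π}) m => Qo K₀ π.1 m) (fun _ h => h) h
      exact ⟨π.1, π.2, hπ⟩
  · exfalso
    obtain ⟨X, -, h⟩ := hmain (max N₀ 1) (le_max_left _ _)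
    have h1 : ∀ m ∈ range (max N₀ 1), ¬ ∃ π : {π : Equiv.Perm (Fin k) // Cmn c σ π}, Qo K₀ π.1 m := by
      rintro m _ ⟨π, -⟩
      exact hne ⟨π⟩
    have h := h.trans_eq (congrArg (Nat.cast : ℕ → ℝ) (card_zero_inst _ _ _ h1))
    rw [Nat.cast_zero] at h
    have h2 : (1 : ℝ) ≤ ((max N₀ 1 : ℕ) : ℝ) := by exact_mod_cast le_max_right N₀ 1
    nlinarith

open Classical in
/-- the orders `π` for which a positive proportion `c'` of the indices below `N` has the property -/
noncomputable def PN (k : ℕ) (K₀ c' : ℝ) (N : ℕ) : Finset (Equiv.Perm (Fin k)) :=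
  univ.filter (fun π => c' * N ≤ (((range N).filter (fun m => Qo K₀ π m)).card : ℝ))

theorem perm_idx {k c N₁ : ℕ} {lam : ℝ} (hlam : 1 ≤ lam) (hk : 1 ≤ k)
    (hc : (c : ℝ) ≤ k - 2 * k / lam) (hN : (k : ℝ) + 1 ≤ ((N₁ + 1 : ℕ) : ℝ) / (40 * lam))
    (K₀ : ℝ) (hK₀ : 1 ≤ K₀) :
    ∃ c' : ℝ, 0 < c' ∧ ∃ N₀ : ℕ, ∀ N : ℕ, N₀ ≤ N →
      c.factorial ≤ (PN k K₀ c' N).card * 2 ^ (k + N₁) := by
  classical
  choose f hf N₀ hN₀ using fun σ => perm_idx1 hlam hk hc hN K₀ hK₀ σ
  obtain ⟨σ₀, -, hσ₀⟩ := exists_min_image (univ : Finset (Equiv.Perm (Fin N₁))) f univ_nonempty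
  refine ⟨f σ₀, hf σ₀, univ.sup N₀, fun N hN' => ?_⟩
  apply patterns_many
  intro σ
  obtain ⟨π, ⟨x, y, hx, hy, hxy⟩, hπ⟩ := hN₀ σ N ((le_sup (f := N₀) (mem_univ σ)).trans hN')
  refine ⟨π, ?_, x, y, hx, hy, hxy⟩
  unfold PN
  rw [mem_filter]
  refine ⟨mem_univ _, le_trans ?_ hπ⟩
  exact mul_le_mul_of_nonneg_right (hσ₀ σ (mem_univ _)) (Nat.cast_nonneg _)

end Pool.Agent.E8helper24.PG
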