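import Pool.Agent.E8helper24.PG.Fin

/-! Shapes of blocks of consecutive primes at the scale `log x`: from arbitrary positions. -/

set_option autoImplicit false

open Finset

namespace Pool.Agent.E8helper24.PG

open Pool.Agent.H361R2.PP Pool.Agent.TH779.Ord
open Pool.Agent.R527.LV (ps pat box mem_box ps_succ ps_zero)

open Classical in
/-- transfer to indices, for `GoodS` -/
theorem idxS {k m : ℕ} (hkm : 10 ^ 7 * (m + 1) ^ 2 ≤ k) (α : Fin k → ℝ) (ε Λ : ℝ) (hε : 0 < ε)
    (hΛ : 0 < Λ) (hα : ∀ i, 0 ≤ α i ∧ α i + ε ≤ Λ)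
    (hdis : ∀ i j, i ≠ j → α i + ε ≤ α j ∨ α j + ε ≤ α i)
    (R : ℕ → ℕ → Prop) (X₁ : ℕ)
    (hR : ∀ X, X₁ ≤ X → ∀ n, X ≤ n → n < 2 * X → GoodS m α ε Λ X n →
      ∃ m a, a ∈ Icc 1 ⌊Λ * Real.log X⌋₊ ∧ P m = n + a ∧ R X m) :
    ∃ c : ℝ, 0 < c ∧ ∃ N₀ : ℕ, ∀ N : ℕ, N₀ ≤ N → ∃ X, X₁ ≤ X ∧
      c * N ≤ (((range N).filter (fun j => R X j)).card : ℝ) := by
  obtain ⟨c, hc, X₀, h⟩ := spa k m α ε Λ hkm hε hΛ hα hdis
  obtain ⟨c', hc', htra⟩ := Pool.Agent.H403R2.PP.tra c Λ hc hΛ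
  obtain ⟨N₀, hN₀⟩ := htra (max X₀ X₁)
  refine ⟨c', hc', N₀, fun N hN => ?_⟩
  obtain ⟨X, hX, hX2⟩ := hN₀ N hN
  refine ⟨X, (le_max_right _ _).trans hX, ?_⟩
  have h1 := hX2 (fun q => ∃ m, P m = q ∧ R X m) (by
    refine (h X ((le_max_left _ _).trans hX)).trans ?_
    apply Nat.cast_le.2
    apply card_le_card
    intro n hn
    rw [mem_filter, mem_Ico] at hn ⊢
    obtain ⟨m, a, ha, hm, hRm⟩ := hR X ((le_max_right _ _).trans hX) n hn.1.1 hn.1.2 hn.2
    refine ⟨hn.1, a, ha, ?_, m, hm, hRm⟩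
    rw [← hm]
    exact Nat.prime_nth_prime m)
  refine h1.trans ?_
  apply Nat.cast_le.2
  apply card_le_card
  intro j hj
  rw [mem_filter] at hj ⊢
  obtain ⟨hj1, m, hm, hRm⟩ := hj
  rw [P_inj hm] at hRm
  exact ⟨hj1, hRm⟩

/-- the primes following a good integer have the same logarithm up to a small error -/
theorem log_size' {Λ η : ℝ} (hΛ : 0 < Λ) (hη : 0 < η) : ∃ X₁ : ℕ, 3 ≤ X₁ ∧ ∀ X n : ℕ, X₁ ≤ X →
    X ≤ n → n < 2 * X → ∀ p : ℕ, n ≤ p → (p : ℝ) ≤ n + Λ * Real.log X →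
    Real.log X ≤ Real.log p ∧ Real.log p ≤ (1 + η) * Real.log X := by
  have h1 : ∀ᶠ x : ℝ in Filter.atTop, ‖Real.log x‖ ≤ 1 / Λ * ‖x‖ :=
    Real.isLittleO_log_id_atTop.bound (by positivity)
  obtain ⟨x₀, hx₀⟩ := Filter.eventually_atTop.1 h1
  have h2 : ∀ᶠ x : ℝ in Filter.atTop, Real.log 3 / η ≤ Real.log x :=
    Real.tendsto_log_atTop.eventually_ge_atTop _
  obtain ⟨x₁, hx₁⟩ := Filter.eventually_atTop.1 h2
  refine ⟨max 3 (max ⌈x₀⌉₊ ⌈x₁⌉₊), le_max_left _ _, fun X n hX hXn hn p hp hpn => ?_⟩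
  have hX3 : 3 ≤ X := (le_max_left _ _).trans hX
  have hX0 : x₀ ≤ X := (Nat.le_ceil _).trans (by
    exact_mod_cast ((le_max_left _ _).trans (le_max_right _ _)).trans hX)
  have hX1 : x₁ ≤ X := (Nat.le_ceil _).trans (by
    exact_mod_cast ((le_max_right _ _).trans (le_max_right _ _)).trans hX)
  have h2 := hx₀ X hX0
  have h3 := hx₁ X hX1
  have hX3' : (3 : ℝ) ≤ X := by exact_mod_cast hX3
  have hL : 0 ≤ Real.log (X : ℝ) := Real.log_natCast_nonneg X
  rw [Real.norm_eq_abs, Real.norm_eq_abs, abs_of_nonneg hL, abs_of_nonneg (by linarith)] at h2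
  have h4 : Λ * Real.log X ≤ X := by
    calc Λ * Real.log X ≤ Λ * (1 / Λ * X) := mul_le_mul_of_nonneg_left h2 hΛ.le
      _ = X := by field_simp
  have h5 : (n : ℝ) ≤ 2 * X := by exact_mod_cast hn.le
  have h6 : (p : ℝ) ≤ 3 * X := by linarith
  have h7 : (X : ℝ) ≤ p := by exact_mod_cast hXn.trans hp
  have hp0 : (0 : ℝ) < p := by linarith
  refine ⟨Real.log_le_log (by linarith) h7, ?_⟩
  have h8 : Real.log p ≤ Real.log 3 + Real.log X := by
    rw [← Real.log_mul (by norm_num) (by linarith)]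
    exact Real.log_le_log hp0 h6
  rw [div_le_iff₀ hη] at h3
  linarith

/-- the gaps following the prime number `j` have the shape `δ v` in units of `log` -/
def Qsh {k : ℕ} (δ ε : ℝ) (v : Fin k → ℕ) (j : ℕ) : Prop :=
  ∀ i : Fin k, |gp' (j + i) - δ * v i * Real.log (P j)| ≤ ε * Real.log (P j)

open Classical in
theorem shape_idx (k : ℕ) (δ ε₁ : ℝ) (hδ : 0 < δ) (hε₁ : 0 < ε₁) (B : Finset ℕ)
    (hB : 10 ^ 7 * ((k + 1) + 1) ^ 2 ≤ B.card) :
    ∃ c : ℝ, 0 < c ∧ ∃ N₀ : ℕ, ∀ N : ℕ, N₀ ≤ N → ∃ (s : ℕ) (v : Fin k → ℕ), (∀ i, 1 ≤ v i) ∧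
      (∀ i : Fin (k + 1), s + ps v i ∈ B) ∧
      c * N ≤ (((range N).filter (fun j => Qsh δ ε₁ v j)).card : ℝ) := by
  obtain ⟨Nc, hNc⟩ : ∃ Nc, Nc = B.card := ⟨_, rfl⟩
  rw [← hNc] at hB
  have hNc0 : 0 < Nc := lt_of_lt_of_le (by positivity) hB
  set pos : Fin Nc → ℤ := fun i => (el B i : ℤ) with hposd
  have helt : ∀ i j : Fin Nc, i < j → el B i < el B j := fun i j h =>
    el_lt B h (by have := j.2; omega)
  have hpos : Function.Injective pos := by
    intro i j hij
    have h0 : (el B i : ℤ) = (el B j : ℤ) := hij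
    have h1 : el B i = el B j := by exact_mod_cast h0
    rcases lt_trichotomy i j with h | h | h
    · have := helt i j h; omega
    · exact h
    · have := helt j i h; omega
  obtain ⟨b, hb⟩ : ∃ b, ∀ y ∈ B, y ≤ b := ⟨B.sup id, fun y hy => le_sup (f := id) hy⟩
  obtain ⟨ε, hε⟩ : ∃ ε : ℝ, ε = min (δ / 4) (ε₁ / 2) := ⟨_, rfl⟩
  have hε0 : 0 < ε := by rw [hε]; exact lt_min (by linarith) (by linarith)
  have hεδ : ε ≤ δ / 4 := by rw [hε]; exact min_le_left _ _
  have hεε : ε ≤ ε₁ / 2 := by rw [hε]; exact min_le_right _ _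
  obtain ⟨Λ, hΛd⟩ : ∃ Λ : ℝ, Λ = δ * ((b : ℝ) + 1) := ⟨_, rfl⟩
  have hΛ : 0 < Λ := by rw [hΛd]; positivity
  set α : Fin Nc → ℝ := fun i => δ * ((pos i + 0 : ℤ) : ℝ) with hαd
  have hposb : ∀ i, ((pos i + 0 : ℤ) : ℝ) = (el B i : ℝ) := by
    intro i
    rw [add_zero]
    show (((el B i : ℕ) : ℤ) : ℝ) = _
    push_cast
    rfl
  have hα : ∀ i, 0 ≤ α i ∧ α i + ε ≤ Λ := by
    intro i
    simp only [hαd]
    rw [hposb]
    have h1 : (el B i : ℝ) ≤ b := by
      exact_mod_cast hb _ (el_mem B (by have := i.2; omega))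
    refine ⟨by positivity, ?_⟩
    have h4 : δ * (el B i : ℝ) ≤ δ * b := mul_le_mul_of_nonneg_left h1 hδ.le
    rw [hΛd]
    linarith
  have hdis : ∀ i j, i ≠ j → α i + ε ≤ α j ∨ α j + ε ≤ α i := by
    intro i j hij
    have key : ∀ i j, pos i < pos j → α i + ε ≤ α j := by
      intro i j h
      have h3 : ((pos i + 0 : ℤ) : ℝ) + 1 ≤ ((pos j + 0 : ℤ) : ℝ) := by
        exact_mod_cast (by omega : pos i + 0 + 1 ≤ pos j + 0)
      have h4 := mul_le_mul_of_nonneg_left h3 hδ.le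
      simp only [hαd]
      linarith
    rcases lt_trichotomy (pos i) (pos j) with h | h | h
    · exact Or.inl (key i j h)
    · exact absurd (hpos h) hij
    · exact Or.inr (key j i h)
  obtain ⟨X₁, hX₁3, hsize⟩ := log_size' (Λ := Λ) (η := ε₁ / (2 * (δ * (b + 1)))) hΛ (by positivity)
  -- the shape of a family of indices
  set ve : (Fin (k + 1) → Fin Nc) → Fin k → ℕ := fun e i => el B (e i.succ) - el B (e i.castSucc)
    with hve
  obtain ⟨c, hc, N₀, hmain⟩ := idxS (m := k + 1) hB α ε Λ hε0 hΛ hα hdis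
    (fun _ m => ∃ e : Fin (k + 1) → Fin Nc, ((∀ i, 1 ≤ ve e i) ∧
      (∀ i : Fin (k + 1), el B (e 0) + ps (ve e) i ∈ B)) ∧ Qsh δ ε₁ (ve e) m) X₁ (by
    intro X hX n hn1 hn2 hgood
    have hX3 : 3 ≤ X := hX₁3.trans hX
    obtain ⟨hg1, hg2, hg3⟩ := hgood
    have hL : 0 < Real.log X := Real.log_pos (by exact_mod_cast (by omega : 1 < X))
    set J : Finset ℕ := (univ.filter (fun i : Fin Nc => 1 = cn (α i) ε Λ X n)).image
      (fun i : Fin Nc => el B i) with hJ
    have hJc : k + 1 ≤ J.card := by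
      rw [hJ, card_image_of_injective]
      · exact hg1
      · intro i j hij
        apply hpos
        show (el B i : ℤ) = (el B j : ℤ)
        have hij' : el B i = el B j := hij
        rw [hij']
    have hidx : ∀ i, ∃ l : Fin Nc, i ≤ k → (1 = cn (α l) ε Λ X n ∧ el B l = el J i) := by
      intro i
      by_cases hi : i ≤ k
      · have h1 := el_mem J (e := i) (by omega)
        rw [hJ, mem_image] at h1
        obtain ⟨l, hl, hle⟩ := h1
        exact ⟨l, fun _ => ⟨(mem_filter.1 hl).2, by rw [hle]⟩⟩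
      · exact ⟨⟨0, hNc0⟩, fun h => absurd h hi⟩
    choose l hl using hidx
    obtain ⟨m, a, ha1, ha2, ha3, ha4⟩ := window_idx pos hpos δ ε Λ 0 hε0 (by linarith) X n
      (by omega) hg2 hg3 k (fun i => (el J i : ℤ)) (by
        intro i j hij hj
        have := el_lt J hij (by omega)
        exact_mod_cast this) (by
        intro i hi
        unfold hits
        rw [mem_image]
        refine ⟨l i, mem_filter.2 ⟨mem_univ _, (hl i hi).1⟩, ?_⟩
        show ((el B (l i) : ℕ) : ℤ) = _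
        rw [(hl i hi).2]) (by
        intro z hz hz1 hz2
        unfold hits at hz
        rw [mem_image] at hz
        obtain ⟨w, hw, rfl⟩ := hz
        have hwJ : el B w ∈ J := by
          rw [hJ, mem_image]
          exact ⟨w, hw, rfl⟩
        obtain ⟨e, he, hel⟩ := el_surj J hwJ
        have hzl : pos w = (el B w : ℤ) := rfl
        rw [hzl] at hz1 hz2
        have hz2' : el B w ≤ el J k := by exact_mod_cast hz2
        rw [← hel] at hz2'
        have h2 : e ≤ k := by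
          by_contra hcon
          push Not at hcon
          have := el_lt J hcon he
          omega
        refine ⟨e, h2, ?_⟩
        show ((el B w : ℕ) : ℤ) = (el J e : ℤ)
        rw [hel])
    refine ⟨m, a, ha1, ha2, fun i => l i, ?_, ?_⟩
    · have hvi : ∀ i : Fin k, ve (fun i => l i) i = el J (i + 1) - el J i := by
        intro i
        simp only [hve, Fin.val_succ, Fin.val_castSucc]
        rw [(hl (i + 1) (by have := i.2; omega)).2, (hl i (by have := i.2; omega)).2]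
      have hvp : ∀ i, 1 ≤ ve (fun i => l i) i := by
        intro i
        rw [hvi]
        have := el_lt J (show (i : ℕ) < (i : ℕ) + 1 by omega) (by have := i.2; omega)
        omega
      refine ⟨hvp, fun i => ?_⟩
      have h0 : el B (l ((0 : Fin (k + 1)) : ℕ)) = el J 0 := (hl 0 (Nat.zero_le _)).2
      have h1 : el B (l ((0 : Fin (k + 1)) : ℕ)) + ps (ve (fun i => l i)) i = el J i := by
        rw [h0]
        induction i using Fin.induction with
        | zero => rw [ps_zero]; simp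
        | succ i ih =>
          rw [ps_succ, ← add_assoc, ih, hvi, Fin.val_castSucc, Fin.val_succ]
          have := el_lt J (show (i : ℕ) < (i : ℕ) + 1 by omega) (by have := i.2; omega)
          omega
      rw [h1, ← (hl i (by have := i.2; omega)).2]
      exact el_mem B (by have := (l i).2; omega)
    · intro i
      have h5 := ha4 i i.2
      have h6 : ((((el J (i + 1) : ℕ) : ℤ) - ((el J i : ℕ) : ℤ) : ℤ) : ℝ) = (ve (fun i => l i) i : ℝ) := by
        simp only [hve, Fin.val_succ, Fin.val_castSucc]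
        rw [(hl (i + 1) (by have := i.2; omega)).2, (hl i (by have := i.2; omega)).2]
        have h7 := el_lt J (show (i : ℕ) < (i : ℕ) + 1 by omega) (by have := i.2; omega)
        rw [Nat.cast_sub h7.le]
        push_cast
        rfl
      rw [h6] at h5
      obtain ⟨vi, hvi⟩ : ∃ vi : ℝ, vi = (ve (fun i => l i) i : ℝ) := ⟨_, rfl⟩
      have hvb : vi ≤ b + 1 := by
        rw [hvi]
        have h7 : ve (fun i => l i) i ≤ b := by
          simp only [hve]
          exact (Nat.sub_le _ _).trans (hb _ (el_mem B (by have := (l (i.succ : Fin (k + 1))).2; omega)))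
        have h8 : (ve (fun i => l i) i : ℝ) ≤ b := by exact_mod_cast h7
        linarith
      have hvi0 : 0 ≤ vi := by rw [hvi]; positivity
      rw [← hvi] at h5 ⊢
      have h9 := hsize X n hX hn1 hn2 (P m) (by omega) (by
        have := ha3 0 (Nat.zero_le _)
        rwa [Nat.add_zero] at this)
      obtain ⟨Lp, hLp⟩ : ∃ Lp : ℝ, Lp = Real.log (P m) := ⟨_, rfl⟩
      rw [← hLp] at h9 ⊢
      have h10 : gp' (m + i) = (P (m + i + 1) : ℝ) - P (m + i) := rfl
      rw [h10]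
      have h11 : |δ * vi * Real.log X - δ * vi * Lp| ≤ ε₁ / 2 * Lp := by
        rw [← mul_sub, abs_mul, abs_of_nonneg (by positivity), abs_sub_comm,
          abs_of_nonneg (by linarith [h9.1])]
        have h12 : Lp - Real.log X ≤ ε₁ / (2 * (δ * (b + 1))) * Real.log X := by linarith [h9.2]
        calc δ * vi * (Lp - Real.log X) ≤ δ * (b + 1) * (ε₁ / (2 * (δ * (b + 1))) * Real.log X) := by
              apply mul_le_mul _ h12 (by linarith [h9.1]) (by positivity)
              exact mul_le_mul_of_nonneg_left hvb hδ.le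
          _ = ε₁ / 2 * Real.log X := by field_simp
          _ ≤ ε₁ / 2 * Lp := mul_le_mul_of_nonneg_left h9.1 (by linarith)
      have h13 : ε * Real.log X ≤ ε₁ / 2 * Lp :=
        mul_le_mul hεε h9.1 hL.le (by linarith)
      calc |(P (m + i + 1) : ℝ) - P (m + i) - δ * vi * Lp| =
          |((P (m + i + 1) : ℝ) - P (m + i) - δ * vi * Real.log X) +
            (δ * vi * Real.log X - δ * vi * Lp)| := by ring_nf
        _ ≤ |(P (m + i + 1) : ℝ) - P (m + i) - δ * vi * Real.log X| +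
            |δ * vi * Real.log X - δ * vi * Lp| := abs_add_le _ _
        _ ≤ ε₁ * Lp := by linarith)
  have hne : Nonempty (Fin (k + 1) → Fin Nc) := ⟨fun _ => ⟨0, hNc0⟩⟩
  refine ⟨c / Fintype.card (Fin (k + 1) → Fin Nc), ?_, max N₀ 1, fun N hN => ?_⟩
  · have : 0 < Fintype.card (Fin (k + 1) → Fin Nc) := Fintype.card_pos
    positivity
  · obtain ⟨X, -, h⟩ := hmain N ((le_max_left _ _).trans hN)
    obtain ⟨e, he⟩ := pigeon _ (fun (e : Fin (k + 1) → Fin Nc) m => ((∀ i, 1 ≤ ve e i) ∧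
      (∀ i : Fin (k + 1), el B (e 0) + ps (ve e) i ∈ B)) ∧ Qsh δ ε₁ (ve e) m) (fun _ h => h) h
    have hN1 : (1 : ℝ) ≤ N := by exact_mod_cast (le_max_right _ _).trans hN
    have hcard : 0 < Fintype.card (Fin (k + 1) → Fin Nc) := Fintype.card_pos
    have hpos2 : 0 < c / Fintype.card (Fin (k + 1) → Fin Nc) * N := by positivity
    obtain ⟨m, hm⟩ := card_pos.1 (Nat.cast_pos.1 (hpos2.trans_le he))
    have hm2 := (mem_filter_inst.1 hm).2
    refine ⟨el B (e 0), ve e, hm2.1.1, hm2.1.2, he.trans ?_⟩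
    apply Nat.cast_le.2
    apply card_le_card
    intro j hj
    have hj2 := mem_filter_inst.1 hj
    exact mem_filter_inst.2 ⟨hj2.1, hj2.2.2⟩

end Pool.Agent.E8helper24.PG
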