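import Pool.Agent.E8helper24.PG.Shape

/-! A positive proportion of all shapes of blocks of consecutive gaps. -/

set_option autoImplicit false

open Finset

namespace Pool.Agent.E8helper24.PG

open Pool.Agent.H361R2.PP Pool.Agent.TH779.Ord
open Pool.Agent.R527.LV (ps pat box mem_box ps_succ ps_zero pat_card ps_strictMono)

theorem exists_lb {α : Type*} (F : Finset α) (f : α → ℝ) (hf : ∀ a ∈ F, 0 < f a) :
    ∃ c : ℝ, 0 < c ∧ ∀ a ∈ F, c ≤ f a := by
  classical
  induction F using Finset.induction with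
  | empty => exact ⟨1, one_pos, fun a ha => absurd ha (notMem_empty a)⟩
  | insert b F hb ih =>
    obtain ⟨c, hc, h⟩ := ih (fun a ha => hf a (mem_insert_of_mem ha))
    refine ⟨min c (f b), lt_min hc (hf b (mem_insert_self _ _)), fun a ha => ?_⟩
    rcases mem_insert.1 ha with rfl | ha
    · exact min_le_right _ _
    · exact (min_le_left _ _).trans (h a ha)

/-- the number of sets of size `N` containing a fixed set `A` of size `m` -/
theorem card_super (R A : Finset ℕ) (N : ℕ) (hA : A ⊆ R) :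
    ((R.powersetCard N).filter (fun B => A ⊆ B)).card ≤ (R.card - A.card).choose (N - A.card) := by
  classical
  rw [← card_sdiff_of_subset hA, ← card_powersetCard]
  apply card_le_card_of_injOn (fun B => B \ A)
  · intro B hB
    have hB' := mem_filter.1 (mem_coe.1 hB)
    rw [mem_powersetCard] at hB'
    rw [mem_coe, mem_powersetCard]
    refine ⟨sdiff_subset_sdiff hB'.1.1 (subset_refl _), ?_⟩
    rw [card_sdiff_of_subset hB'.2, hB'.1.2]
  · intro B hB B' hB' h
    have h1 := (mem_filter.1 (mem_coe.1 hB)).2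
    have h2 := (mem_filter.1 (mem_coe.1 hB')).2
    simp only at h
    rw [← sdiff_union_of_subset h1, ← sdiff_union_of_subset h2, h]

theorem shapes_count {k N M : ℕ} (G : Finset (Fin k → ℕ)) (hG : ∀ v ∈ G, ∀ i, 1 ≤ v i)
    (hN : k + 1 ≤ N) (hM : N ≤ M)
    (h : ∀ B ∈ (range (M + 1)).powersetCard N, ∃ (s : ℕ) (v : Fin k → ℕ), v ∈ G ∧
      ∀ i : Fin (k + 1), s + ps v i ∈ B) :
    M.choose k ≤ G.card * (N.choose (k + 1) * (k + 1)) := by
  classical
  have h1 : (M + 1).choose N ≤ ((M + 1) * G.card) * (M - k).choose (N - (k + 1)) := by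
    have h2 : (range (M + 1)).powersetCard N ⊆ ((range (M + 1)) ×ˢ G).biUnion (fun q =>
        ((range (M + 1)).powersetCard N).filter (fun B => (pat q.2).image (fun t => q.1 + t) ⊆ B)) := by
      intro B hB
      obtain ⟨s, v, hv, hs⟩ := h B hB
      have hBr := (mem_powersetCard.1 hB).1
      rw [mem_biUnion]
      refine ⟨(s, v), mem_product.2 ⟨?_, hv⟩, mem_filter.2 ⟨hB, ?_⟩⟩
      · have := hBr (hs 0)
        rw [ps_zero, Nat.add_zero] at this
        exact this
      · intro y hy
        rw [mem_image] at hy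
        obtain ⟨t, ht, rfl⟩ := hy
        unfold pat at ht
        rw [mem_image] at ht
        obtain ⟨i, _, rfl⟩ := ht
        exact hs i
    have h3 := card_le_card h2
    rw [card_powersetCard, card_range] at h3
    refine h3.trans (card_biUnion_le.trans ?_)
    have h4 : ∀ q ∈ (range (M + 1)) ×ˢ G, (((range (M + 1)).powersetCard N).filter
        (fun B => (pat q.2).image (fun t => q.1 + t) ⊆ B)).card ≤ (M - k).choose (N - (k + 1)) := by
      intro q hq
      have hq2 := (mem_product.1 hq).2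
      have hc : ((pat q.2).image (fun t => q.1 + t)).card = k + 1 := by
        rw [card_image_of_injective _ (add_right_injective q.1), pat_card (hG _ hq2)]
      by_cases hsub : (pat q.2).image (fun t => q.1 + t) ⊆ range (M + 1)
      · refine (card_super _ _ N hsub).trans ?_
        rw [hc, card_range, Nat.add_sub_add_right]
      · rw [filter_eq_empty_iff.2 ?_]
        · simp
        · intro B hB hcon
          exact hsub (hcon.trans (mem_powersetCard.1 hB).1)
    refine (sum_le_sum h4).trans ?_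
    rw [sum_const, card_product, card_range, smul_eq_mul]
  have h2 : (M + 1).choose N * N.choose (k + 1) = (M + 1).choose (k + 1) * (M - k).choose (N - (k + 1)) := by
    have := Nat.choose_mul (n := M + 1) (k := N) (s := k + 1) hN
    rw [this, Nat.add_sub_add_right]
  have h3 : 0 < (M - k).choose (N - (k + 1)) := Nat.choose_pos (by omega)
  have h4 : (M + 1).choose (k + 1) ≤ (M + 1) * G.card * N.choose (k + 1) := by
    have h5 : (M + 1).choose (k + 1) * (M - k).choose (N - (k + 1)) ≤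
        ((M + 1) * G.card * N.choose (k + 1)) * (M - k).choose (N - (k + 1)) := by
      rw [← h2]
      calc (M + 1).choose N * N.choose (k + 1) ≤
          (((M + 1) * G.card) * (M - k).choose (N - (k + 1))) * N.choose (k + 1) :=
            Nat.mul_le_mul_right _ h1
        _ = _ := by ring
    exact Nat.le_of_mul_le_mul_right h5 h3
  have h5 : (M + 1) * M.choose k = (M + 1).choose (k + 1) * (k + 1) := Nat.add_one_mul_choose_eq M k
  have h6 : (M + 1) * M.choose k ≤ (M + 1) * (G.card * (N.choose (k + 1) * (k + 1))) := by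
    rw [h5]
    calc (M + 1).choose (k + 1) * (k + 1) ≤ ((M + 1) * G.card * N.choose (k + 1)) * (k + 1) :=
          Nat.mul_le_mul_right _ h4
      _ = _ := by ring
  exact Nat.le_of_mul_le_mul_left h6 (by omega)

theorem pow_le_choose' {k M : ℕ} (hM : 2 * k ≤ M) : M ^ k ≤ 2 ^ k * (k.factorial * M.choose k) := by
  have h1 : (M + 1 - k) ^ k ≤ k.factorial * M.choose k := by
    have := Nat.pow_le_choose (α := ℚ) k M
    rw [div_le_iff₀ (by exact_mod_cast k.factorial_pos)] at this
    have h2 : (((M + 1 - k : ℕ) ^ k : ℕ) : ℚ) ≤ ((k.factorial * M.choose k : ℕ) : ℚ) := by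
      push_cast
      rw [mul_comm]
      exact_mod_cast this
    exact_mod_cast h2
  calc M ^ k ≤ (2 * (M + 1 - k)) ^ k := Nat.pow_le_pow_left (by omega) k
    _ = 2 ^ k * (M + 1 - k) ^ k := mul_pow _ _ _
    _ ≤ _ := Nat.mul_le_mul_left _ h1

open Classical in
/-- the good shapes -/
noncomputable def GS (k M : ℕ) (δ ε c : ℝ) (N : ℕ) : Finset (Fin k → ℕ) :=
  (box k M).filter (fun v => c * N ≤ (((range N).filter (fun j => Qsh δ ε v j)).card : ℝ))

open Classical in
/-- a positive proportion of the shapes occurs for a positive proportion of the indices -/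
theorem shapes_idx (k : ℕ) : ∃ κ : ℝ, 0 < κ ∧ ∃ M₀ : ℕ, ∀ M : ℕ, M₀ ≤ M → ∀ δ ε : ℝ, 0 < δ → 0 < ε →
    ∃ c : ℝ, 0 < c ∧ ∃ N₀ : ℕ, ∀ N : ℕ, N₀ ≤ N → κ * (M : ℝ) ^ k ≤ ((GS k M δ ε c N).card : ℝ) := by
  obtain ⟨Nb, hNb⟩ : ∃ Nb, Nb = 10 ^ 7 * ((k + 1) + 1) ^ 2 := ⟨_, rfl⟩
  have hNbk : 2 * k + 1 ≤ Nb := by
    rw [hNb]
    have : (k + 1) + 1 ≤ ((k + 1) + 1) ^ 2 := Nat.le_self_pow two_ne_zero _
    omega
  obtain ⟨D, hD⟩ : ∃ D : ℕ, D = 2 ^ k * (k.factorial * (Nb.choose (k + 1) * (k + 1))) := ⟨_, rfl⟩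
  have hch : 0 < Nb.choose (k + 1) := Nat.choose_pos (by omega)
  have hD0 : 0 < D := by
    rw [hD]
    have := k.factorial_pos
    positivity
  refine ⟨1 / D, by positivity, Nb, fun M hM δ ε hδ hε => ?_⟩
  have hsh : ∀ B ∈ (range (M + 1)).powersetCard Nb, ∃ c : ℝ, 0 < c ∧ ∃ N₀ : ℕ, ∀ N : ℕ, N₀ ≤ N →
      ∃ (s : ℕ) (v : Fin k → ℕ), (∀ i, 1 ≤ v i) ∧ (∀ i : Fin (k + 1), s + ps v i ∈ B) ∧
      c * N ≤ (((range N).filter (fun j => Qsh δ ε v j)).card : ℝ) := by
    intro B hB
    exact shape_idx k δ ε hδ hε B (by rw [(mem_powersetCard.1 hB).2, hNb])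
  choose! c hc N₀ hcN using hsh
  obtain ⟨c', hc', hlb⟩ := exists_lb _ c hc
  refine ⟨c', hc', ((range (M + 1)).powersetCard Nb).sup N₀, fun N hN => ?_⟩
  have h1 : M.choose k ≤ (GS k M δ ε c' N).card * (Nb.choose (k + 1) * (k + 1)) := by
    apply shapes_count _ _ (by omega) hM
    · intro B hB
      obtain ⟨s, v, hv1, hv2, hv3⟩ := hcN B hB N ((le_sup (f := N₀) hB).trans hN)
      refine ⟨s, v, ?_, hv2⟩
      unfold GS
      rw [mem_filter, mem_box]
      refine ⟨fun i => ⟨hv1 i, ?_⟩, ?_⟩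
      · have h2 := mem_range.1 ((mem_powersetCard.1 hB).1 (hv2 i.succ))
        rw [ps_succ] at h2
        omega
      · refine le_trans ?_ hv3
        exact mul_le_mul_of_nonneg_right (hlb B hB) (Nat.cast_nonneg _)
    · intro v hv i
      unfold GS at hv
      exact (mem_box.1 (mem_filter.1 hv).1 i).1
  have h2 := pow_le_choose' (k := k) (M := M) (by omega)
  have h3 : M ^ k ≤ D * (GS k M δ ε c' N).card := by
    refine h2.trans ?_
    rw [hD]
    calc 2 ^ k * (k.factorial * M.choose k) ≤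
        2 ^ k * (k.factorial * ((GS k M δ ε c' N).card * (Nb.choose (k + 1) * (k + 1)))) :=
          Nat.mul_le_mul_left _ (Nat.mul_le_mul_left _ h1)
      _ = _ := by ring
  rw [one_div, ← div_eq_inv_mul, div_le_iff₀ (by exact_mod_cast hD0)]
  have h4 : ((M ^ k : ℕ) : ℝ) ≤ ((D * (GS k M δ ε c' N).card : ℕ) : ℝ) := Nat.cast_le.2 h3
  push_cast at h4
  linarith

end Pool.Agent.E8helper24.PG
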