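import Pool.Agent.E8helper24.PG.VecPow

/-! The measure of the set of the frequent normalised gap vectors. -/

set_option autoImplicit false

open Finset

namespace Pool.Agent.E8helper24.PG

open Pool.Agent.H387R2 Pool.Agent.R527.LV Filter Topology MeasureTheory

/-- measure of the set of the points which are in infinitely many sets -/
theorem measure_frequently {α : Type*} [MeasurableSpace α] (μ : Measure α) (E : ℕ → Set α)
    (hE : ∀ x, MeasurableSet (E x)) (K : Set α) (hK : μ K ≠ ⊤) (hEK : ∀ x, E x ⊆ K) (a : ENNReal)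
    (ha : ∀ᶠ x in atTop, a ≤ μ (E x)) : a ≤ μ {y | ∃ᶠ x in atTop, y ∈ E x} := by
  have h1 : {y | ∃ᶠ x in atTop, y ∈ E x} = ⋂ N : ℕ, ⋃ x : ℕ, ⋃ _ : N ≤ x, E x := by
    ext y
    simp only [Set.mem_ofPred_eq, Set.mem_iInter, Set.mem_iUnion, frequently_atTop]
    constructor
    · intro h N
      obtain ⟨x, hx, h⟩ := h N
      exact ⟨x, hx, h⟩
    · intro h N
      obtain ⟨x, hx, h⟩ := h N
      exact ⟨x, hx, h⟩
  rw [h1]
  have h2 := tendsto_measure_iInter_atTop (μ := μ) (s := fun N : ℕ => ⋃ x : ℕ, ⋃ _ : N ≤ x, E x)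
    (fun N => (MeasurableSet.iUnion fun x => MeasurableSet.iUnion fun _ => hE x).nullMeasurableSet)
    (by
      intro N N' hNN'
      apply Set.iUnion_mono
      intro x
      apply Set.iUnion_subset
      intro hx
      exact Set.subset_iUnion_of_subset (hNN'.trans hx) (Set.Subset.refl _))
    ⟨0, by
      apply ne_top_of_le_ne_top hK
      apply measure_mono
      apply Set.iUnion_subset
      intro x
      apply Set.iUnion_subset
      intro _
      exact hEK x⟩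
  refine ge_of_tendsto h2 ?_
  filter_upwards [ha] with N hN
  refine hN.trans (measure_mono ?_)
  exact Set.subset_iUnion_of_subset N (Set.subset_iUnion_of_subset le_rfl (Set.Subset.refl _))

theorem meas_freq (k : ℕ) (ε c : ℝ) (x : ℕ) : MeasurableSet {y : Fin k → ℝ | FreqV k ε c x y} := by
  have h1 : {y : Fin k → ℝ | FreqV k ε c x y} = ⋃ F : Finset (Fin k → ℕ),
      ⋃ _ : c * Real.log x ^ k ≤ (F.card : ℝ) ∧ ∀ h ∈ F,
        c * (1 + Uni.CT (pat h)) * (x / Real.log x ^ (k + 1)) ≤ cnt x h,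
      ⋂ h : Fin k → ℕ, ⋂ _ : h ∈ F, ⋂ i : Fin k,
        {y : Fin k → ℝ | |(h i : ℝ) - y i * Real.log x| ≤ ε * Real.log x} := by
    ext y
    simp only [Set.mem_ofPred_eq, Set.mem_iUnion, Set.mem_iInter, FreqV, exists_prop]
    constructor
    · rintro ⟨F, h1, h2⟩
      exact ⟨F, ⟨h1, fun h hh => (h2 h hh).2⟩, fun h hh => (h2 h hh).1⟩
    · rintro ⟨F, ⟨h1, h2⟩, h3⟩
      exact ⟨F, h1, fun h hh => ⟨h3 h hh, h2 h hh⟩⟩
  rw [h1]
  refine MeasurableSet.iUnion fun F => MeasurableSet.iUnion fun _ => MeasurableSet.iInter fun h =>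
    MeasurableSet.iInter fun _ => MeasurableSet.iInter fun i => ?_
  apply measurableSet_le
  · fun_prop
  · fun_prop

theorem freq_mono {k : ℕ} {ε ε' c c' : ℝ} {x : ℕ} {y y' : Fin k → ℝ} (hx : 1 ≤ x)
    (hc : c' ≤ c) (hε : ∀ i, |y i - y' i| + ε ≤ ε') (h : FreqV k ε c x y) : FreqV k ε' c' x y' := by
  obtain ⟨F, h1, h2⟩ := h
  have hL : 0 ≤ Real.log (x : ℝ) := Real.log_natCast_nonneg x
  refine ⟨F, (mul_le_mul_of_nonneg_right hc (by positivity)).trans h1, fun h hh => ⟨fun i => ?_, ?_⟩⟩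
  · have h3 := (h2 h hh).1 i
    calc |(h i : ℝ) - y' i * Real.log x| =
        |((h i : ℝ) - y i * Real.log x) + (y i - y' i) * Real.log x| := by ring_nf
      _ ≤ |(h i : ℝ) - y i * Real.log x| + |(y i - y' i) * Real.log x| := abs_add_le _ _
      _ ≤ ε * Real.log x + |y i - y' i| * Real.log x := by
          rw [abs_mul, abs_of_nonneg hL]
          linarith
      _ = (|y i - y' i| + ε) * Real.log x := by ring
      _ ≤ ε' * Real.log x := mul_le_mul_of_nonneg_right (hε i) hL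
  · refine le_trans ?_ (h2 h hh).2
    have h4 : 0 ≤ 1 + Uni.CT (pat h) := by
      have := Uni.CT_nonneg (pat h)
      linarith
    exact mul_le_mul_of_nonneg_right (mul_le_mul_of_nonneg_right hc h4) (by positivity)

/-- the cube `[0, T] ^ k` -/
def cube (k : ℕ) (T : ℝ) : Set (Fin k → ℝ) := Set.univ.pi fun _ => Set.Icc 0 T

theorem meas_cube (k : ℕ) (T : ℝ) : MeasurableSet (cube k T) :=
  MeasurableSet.univ_pi fun _ => measurableSet_Icc

theorem cube_ne_top (k : ℕ) (T : ℝ) : volume (cube k T) ≠ ⊤ := by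
  unfold cube
  rw [volume_pi_pi]
  exact ENNReal.prod_ne_top fun i _ => by rw [Real.volume_Icc]; exact ENNReal.ofReal_ne_top

theorem cells_measure {k M : ℕ} (δ : ℝ) (hδ : 0 ≤ δ) (G : Finset (Fin k → ℕ))
    (hG : ∀ v ∈ G, ∀ i, 1 ≤ v i ∧ v i ≤ M) (A : Set (Fin k → ℝ))
    (hA : ∀ v ∈ G, ∀ y : Fin k → ℝ, (∀ i, δ * (v i - 1) < y i ∧ y i ≤ δ * v i) → y ∈ A) :
    ENNReal.ofReal (G.card * δ ^ k) ≤ volume (cube k (δ * M) ∩ A) := by
  classical
  set cell : (Fin k → ℕ) → Set (Fin k → ℝ) := fun v =>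
    Set.univ.pi fun i => Set.Ioc (δ * (v i - 1)) (δ * v i) with hcell
  have h1 : (⋃ v ∈ G, cell v) ⊆ cube k (δ * M) ∩ A := by
    intro y hy
    simp only [Set.mem_iUnion, exists_prop] at hy
    obtain ⟨v, hv, hy⟩ := hy
    simp only [hcell, Set.mem_univ_pi, Set.mem_Ioc] at hy
    refine ⟨?_, hA v hv y hy⟩
    unfold cube
    rw [Set.mem_univ_pi]
    intro i
    have h2 := hy i
    have h3 : (1 : ℝ) ≤ v i := by exact_mod_cast (hG v hv i).1
    have h4 : (v i : ℝ) ≤ M := by exact_mod_cast (hG v hv i).2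
    refine ⟨?_, h2.2.trans (mul_le_mul_of_nonneg_left h4 hδ)⟩
    have : 0 ≤ δ * (v i - 1) := mul_nonneg hδ (by linarith)
    linarith [h2.1]
  refine le_trans ?_ (measure_mono h1)
  rw [measure_biUnion_finset]
  · have h2 : ∀ v ∈ G, volume (cell v) = ENNReal.ofReal (δ ^ k) := by
      intro v _
      simp only [hcell]
      rw [Real.volume_pi_Ioc]
      have : ∀ i : Fin k, ENNReal.ofReal (δ * v i - δ * (v i - 1)) = ENNReal.ofReal δ := by
        intro i
        congr 1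
        ring
      rw [prod_congr rfl fun i _ => this i, prod_const, card_univ, Fintype.card_fin,
        ENNReal.ofReal_pow hδ]
    rw [sum_congr rfl h2, sum_const, nsmul_eq_mul, ENNReal.ofReal_mul (Nat.cast_nonneg _),
      ENNReal.ofReal_natCast]
  · intro v _ w _ hvw
    rw [Function.onFun, Set.disjoint_left]
    intro y hy hy'
    apply hvw
    funext i
    simp only [hcell, Set.mem_univ_pi, Set.mem_Ioc] at hy hy'
    have h2 := hy i
    have h3 := hy' i
    have h4 : δ * ((v i : ℝ) - 1) < δ * w i := h2.1.trans_le h3.2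
    have h5 : δ * ((w i : ℝ) - 1) < δ * v i := h3.1.trans_le h2.2
    have h6 : (v i : ℝ) - 1 < w i := lt_of_mul_lt_mul_left h4 hδ
    have h7 : (w i : ℝ) - 1 < v i := lt_of_mul_lt_mul_left h5 hδ
    have h8 : v i < w i + 1 := by
      have : (v i : ℝ) < w i + 1 := by linarith
      exact_mod_cast this
    have h9 : w i < v i + 1 := by
      have : (w i : ℝ) < v i + 1 := by linarith
      exact_mod_cast this
    omega
  · intro v _
    exact MeasurableSet.univ_pi fun _ => measurableSet_Ioc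

open Classical in
theorem freq_measure (k : ℕ) : ∃ κ : ℝ, 0 < κ ∧ ∀ T ε : ℝ, 0 < T → 0 < ε →
    ∃ c : ℝ, 0 < c ∧ ∃ x₀ : ℕ, ∀ x : ℕ, x₀ ≤ x →
      ENNReal.ofReal (κ * T ^ k) ≤ volume (cube k T ∩ {y | FreqV k ε c x y}) := by
  obtain ⟨κ, hκ, M₀, hmain⟩ := shapes_vec k
  refine ⟨κ, hκ, fun T ε hT hε => ?_⟩
  obtain ⟨M, hM⟩ : ∃ M : ℕ, M = max (max M₀ ⌈2 * T / ε⌉₊) 1 := ⟨_, rfl⟩
  have hM1 : 1 ≤ M := hM ▸ le_max_right _ _
  have hMM₀ : M₀ ≤ M := hM ▸ (le_max_left _ _).trans (le_max_left _ _)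
  have hMT : 2 * T / ε ≤ M := (Nat.le_ceil _).trans (by
    exact_mod_cast (hM ▸ (le_max_right _ _).trans (le_max_left _ _) : ⌈2 * T / ε⌉₊ ≤ M))
  have hMR : (1 : ℝ) ≤ M := by exact_mod_cast hM1
  obtain ⟨δ, hδ⟩ : ∃ δ : ℝ, δ = T / M := ⟨_, rfl⟩
  have hδ0 : 0 < δ := by rw [hδ]; positivity
  have hδε : δ ≤ ε / 2 := by
    rw [hδ, div_le_iff₀ (by linarith)]
    rw [div_le_iff₀ hε] at hMT
    linarith
  have hδM : δ * M = T := by rw [hδ]; field_simp
  obtain ⟨c, hc, x₀, hx₀⟩ := hmain M hMM₀ δ (ε / 2) hδ0 (half_pos hε)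
  refine ⟨c, hc, max x₀ 1, fun x hx => ?_⟩
  have h1 := hx₀ x ((le_max_left _ _).trans hx)
  have hx1 : 1 ≤ x := (le_max_right _ _).trans hx
  have h2 := cells_measure (M := M) δ hδ0.le
    ((box k M).filter (fun v => FreqV k (ε / 2) c x (fun i => δ * v i)))
    (fun v hv => mem_box.1 (mem_filter_inst.1 hv).1) {y | FreqV k ε c x y} (by
      intro v hv y hy
      refine freq_mono hx1 le_rfl ?_ (mem_filter_inst.1 hv).2
      intro i
      have h3 := hy i
      have h4 : |δ * (v i : ℝ) - y i| ≤ δ := by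
        rw [abs_of_nonneg (by linarith [h3.2])]
        linarith [h3.1]
      linarith)
  rw [hδM] at h2
  refine le_trans (ENNReal.ofReal_le_ofReal ?_) h2
  calc κ * T ^ k = κ * (M : ℝ) ^ k * δ ^ k := by rw [← hδM]; ring
    _ ≤ _ := mul_le_mul_of_nonneg_right h1 (by positivity)

open Classical in
theorem limit_measure {k : ℕ} {κ : ℝ} (h : ∀ T ε : ℝ, 0 < T → 0 < ε →
    ∃ c : ℝ, 0 < c ∧ ∃ x₀ : ℕ, ∀ x : ℕ, x₀ ≤ x →
      ENNReal.ofReal (κ * T ^ k) ≤ volume (cube k T ∩ {y | FreqV k ε c x y})) (T : ℝ) (hT : 0 < T) :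
    ENNReal.ofReal (κ * T ^ k) ≤ volume (cube k T ∩
      {y | ∀ ε : ℝ, 0 < ε → ∃ c : ℝ, 0 < c ∧ ∃ᶠ x : ℕ in atTop, FreqV k ε c x y}) := by
  set A : ℕ → Set (Fin k → ℝ) := fun n => ⋃ m : ℕ,
    {y | ∃ᶠ x : ℕ in atTop, y ∈ cube k T ∩ {y | FreqV k (1 / ((n : ℝ) + 1)) (1 / ((m : ℝ) + 1)) x y}}
    with hA
  have hmeas : ∀ ε c x, MeasurableSet (cube k T ∩ {y | FreqV k ε c x y}) := fun ε c x =>
    (meas_cube k T).inter (meas_freq k ε c x)
  have hmeas2 : ∀ ε c, MeasurableSet {y | ∃ᶠ x : ℕ in atTop, y ∈ cube k T ∩ {y | FreqV k ε c x y}} := by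
    intro ε c
    have : {y | ∃ᶠ x : ℕ in atTop, y ∈ cube k T ∩ {y | FreqV k ε c x y}} =
        ⋂ N : ℕ, ⋃ x : ℕ, ⋃ _ : N ≤ x, (cube k T ∩ {y | FreqV k ε c x y}) := by
      ext y
      simp only [Set.mem_ofPred_eq, Set.mem_iInter, Set.mem_iUnion, frequently_atTop, exists_prop]
    rw [this]
    exact MeasurableSet.iInter fun N => MeasurableSet.iUnion fun x => MeasurableSet.iUnion fun _ =>
      hmeas ε c x
  have hAK : ∀ n, A n ⊆ cube k T := by
    intro n
    apply Set.iUnion_subset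
    intro m y hy
    obtain ⟨x, hx⟩ := Frequently.exists hy
    exact hx.1
  have hsub : (⋂ n, A n) ⊆ cube k T ∩
      {y | ∀ ε : ℝ, 0 < ε → ∃ c : ℝ, 0 < c ∧ ∃ᶠ x : ℕ in atTop, FreqV k ε c x y} := by
    intro y hy
    refine ⟨hAK 0 (Set.mem_iInter.1 hy 0), fun ε hε => ?_⟩
    obtain ⟨n, hn⟩ := exists_nat_one_div_lt hε
    obtain ⟨m, hm⟩ := Set.mem_iUnion.1 (Set.mem_iInter.1 hy n)
    refine ⟨1 / ((m : ℝ) + 1), by positivity, ?_⟩
    rw [Set.mem_ofPred_eq] at hm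
    refine (hm.and_eventually (eventually_ge_atTop 1)).mono ?_
    rintro x ⟨hx, hx1⟩
    exact freq_mono hx1 le_rfl (fun i => by simp only [sub_self, abs_zero, zero_add]; exact hn.le) hx.2
  refine le_trans ?_ (measure_mono hsub)
  have hanti : Antitone A := by
    intro n n' hnn'
    apply Set.iUnion_mono
    intro m y hy
    refine (Frequently.and_eventually hy (eventually_ge_atTop 1)).mono ?_
    rintro x ⟨hx, hx1⟩
    refine ⟨hx.1, freq_mono hx1 le_rfl (fun i => ?_) hx.2⟩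
    simp only [sub_self, abs_zero, zero_add]
    apply one_div_le_one_div_of_le (by positivity)
    have : (n : ℝ) ≤ n' := by exact_mod_cast hnn'
    linarith
  have h2 := tendsto_measure_iInter_atTop (μ := volume) (s := A)
    (fun n => (MeasurableSet.iUnion fun m => hmeas2 _ _).nullMeasurableSet) hanti
    ⟨0, ne_top_of_le_ne_top (cube_ne_top k T) (measure_mono (hAK 0))⟩
  refine ge_of_tendsto' h2 ?_
  intro n
  obtain ⟨c, hc, x₀, hx₀⟩ := h T (1 / ((n : ℝ) + 1)) hT (by positivity)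
  obtain ⟨m, hm⟩ := exists_nat_one_div_lt hc
  have h3 := measure_frequently volume (fun x => cube k T ∩ {y | FreqV k (1 / ((n : ℝ) + 1)) c x y})
    (fun x => hmeas _ _ x) (cube k T) (cube_ne_top k T) (fun x => Set.inter_subset_left)
    (ENNReal.ofReal (κ * T ^ k)) (eventually_atTop.2 ⟨x₀, hx₀⟩)
  refine h3.trans (measure_mono ?_)
  intro y hy
  rw [Set.mem_iUnion]
  refine ⟨m, ?_⟩
  refine (Frequently.and_eventually hy (eventually_ge_atTop 1)).mono ?_
  rintro x ⟨hx, hx1⟩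
  exact ⟨hx.1, freq_mono hx1 hm.le (fun i => by simp) hx.2⟩

end Pool.Agent.E8helper24.PG
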