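import Pool.Agent.E8helper24.PG.ShapeCount

/-! The transfer principle with primes larger than `x ^ (1 - η)`, and shapes at the scale `log x`. -/

set_option autoImplicit false

open Finset

namespace Pool.Agent.E8helper24.PG

open Pool.Agent.H387R2 Pool.Agent.R527.LV Filter Topology

open Classical in
theorem vec_pow (k : ℕ) (c₁ η : ℝ) (hc₁ : 0 < c₁) (hη : 0 < η) :
    ∃ c : ℝ, 0 < c ∧ ∃ M : ℝ, ∃ x₀ : ℕ, ∀ x : ℕ, x₀ ≤ x → ∀ (Q : ℕ → Prop) (S : (Fin k → ℕ) → Prop),
      (∀ j, (x : ℝ) ^ (1 - η) ≤ P j → P (j + k) ≤ x → Q j →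
        S (fun i => P (j + i + 1) - P (j + i))) →
      c₁ * ((Nat.primeCounting x - k : ℕ) : ℝ) ≤
        (((range (Nat.primeCounting x - k)).filter Q).card : ℝ) →
      c * Real.log x ^ k ≤ (((box k ⌊M * Real.log x⌋₊).filter (fun h => S h ∧
        c * (1 + Uni.CT (pat h)) * (x / Real.log x ^ (k + 1)) ≤ cnt x h)).card : ℝ) := by
  obtain ⟨c, hc, M, hvec⟩ := vec k (c₁ / 2) (half_pos hc₁)
  have tN : Tendsto (fun N : ℕ => (N : ℝ)) atTop atTop := tendsto_natCast_atTop_atTop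
  have h1 : ∀ᶠ x : ℕ in atTop, Real.log (x : ℝ) ≤ c₁ / 16 * (x : ℝ) ^ η := by
    have h2 := ((isLittleO_log_rpow_atTop hη).comp_tendsto tN).bound (show (0 : ℝ) < c₁ / 16 by positivity)
    filter_upwards [h2, eventually_ge_atTop 1] with x hx h1
    have hx1 : (1 : ℝ) ≤ x := by exact_mod_cast h1
    have hl : 0 ≤ Real.log (x : ℝ) := Real.log_nonneg hx1
    simp only [Function.comp_apply, Real.norm_eq_abs] at hx
    rwa [abs_of_nonneg hl, abs_of_nonneg (by positivity)] at hx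
  have h2 : ∀ᶠ x : ℕ in atTop, Real.log (x : ℝ) ≤ c₁ / 16 * (x : ℝ) := by
    have h2 := (Real.isLittleO_log_id_atTop.comp_tendsto tN).bound (show (0 : ℝ) < c₁ / 16 by positivity)
    filter_upwards [h2, eventually_ge_atTop 1] with x hx h1
    have hx1 : (1 : ℝ) ≤ x := by exact_mod_cast h1
    have hl : 0 ≤ Real.log (x : ℝ) := Real.log_nonneg hx1
    simp only [Function.comp_apply, id, Real.norm_eq_abs] at hx
    rwa [abs_of_nonneg hl, abs_of_nonneg (by positivity)] at hx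
  have h3 : ∀ᶠ x : ℕ in atTop, 0 < Real.log (x : ℝ) :=
    (Real.tendsto_log_atTop.comp tN).eventually_gt_atTop 0
  obtain ⟨x₀, hx₀⟩ := eventually_atTop.1 (hvec.and (h1.and (h2.and (h3.and (pi_low k)))))
  refine ⟨c, hc, M, max x₀ 1, fun x hx Q S hQS hcount => ?_⟩
  obtain ⟨hv, e1, e2, e3, e4⟩ := hx₀ x ((le_max_left _ _).trans hx)
  have hx1 : 1 ≤ x := (le_max_right _ _).trans hx
  have hx0 : (0 : ℝ) < x := by exact_mod_cast hx1
  refine hv (fun j => (x : ℝ) ^ (1 - η) ≤ P j ∧ Q j) S (fun j _ h2 h3 => hQS j h3.1 h2 h3.2) ?_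
  set N := Nat.primeCounting x - k with hN
  set L := Real.log (x : ℝ) with hL
  have b1 : (((range N).filter (fun j => (P j : ℝ) < (x : ℝ) ^ (1 - η))).card : ℝ) ≤ c₁ / 2 * N := by
    have f1 : (range N).filter (fun j => (P j : ℝ) < (x : ℝ) ^ (1 - η)) ⊆
        range (⌊(x : ℝ) ^ (1 - η)⌋₊ + 1) := by
      intro j hj
      rw [mem_filter] at hj
      rw [mem_range, Nat.lt_succ_iff]
      apply Nat.le_floor
      have : (j : ℝ) ≤ P j := by exact_mod_cast le_P j
      linarith [hj.2]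
    have f2 : (((range N).filter (fun j => (P j : ℝ) < (x : ℝ) ^ (1 - η))).card : ℝ) ≤
        (x : ℝ) ^ (1 - η) + 1 := by
      have := card_le_card f1
      rw [card_range] at this
      have h7 : (((range N).filter (fun j => (P j : ℝ) < (x : ℝ) ^ (1 - η))).card : ℝ) ≤
          (⌊(x : ℝ) ^ (1 - η)⌋₊ + 1 : ℕ) := Nat.cast_le.2 this
      push_cast at h7
      have h8 := Nat.floor_le (show (0 : ℝ) ≤ (x : ℝ) ^ (1 - η) by positivity)
      linarith
    have f3 : (x : ℝ) ^ (1 - η) + 1 ≤ c₁ / 8 * (x / L) := by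
      rw [← mul_div_assoc, le_div_iff₀ e3, add_mul, one_mul]
      have f4 : (x : ℝ) ^ (1 - η) * L ≤ c₁ / 16 * x := by
        calc (x : ℝ) ^ (1 - η) * L ≤ (x : ℝ) ^ (1 - η) * (c₁ / 16 * (x : ℝ) ^ η) :=
              mul_le_mul_of_nonneg_left e1 (by positivity)
          _ = c₁ / 16 * ((x : ℝ) ^ (1 - η) * (x : ℝ) ^ η) := by ring
          _ = c₁ / 16 * x := by
              rw [← Real.rpow_add hx0, sub_add_cancel, Real.rpow_one]
      linarith
    have f5 : c₁ / 8 * (x / L) = c₁ / 2 * (x / (4 * L)) := by field_simp; ring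
    rw [f5] at f3
    exact f2.trans (f3.trans (mul_le_mul_of_nonneg_left e4 (by positivity)))
  have hsub : (range N).filter Q ⊆ (range N).filter (fun j => (P j : ℝ) < (x : ℝ) ^ (1 - η)) ∪
      (range N).filter (fun j => (x : ℝ) ^ (1 - η) ≤ P j ∧ Q j) := by
    intro j hj
    rw [mem_filter] at hj
    rw [mem_union, mem_filter, mem_filter]
    rcases lt_or_ge (P j : ℝ) ((x : ℝ) ^ (1 - η)) with h | h
    · exact Or.inl ⟨hj.1, h⟩
    · exact Or.inr ⟨hj.1, h, hj.2⟩
  have g1 := (card_le_card hsub).trans (card_union_le _ _)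
  have g2 : (((range N).filter Q).card : ℝ) ≤
      (((range N).filter (fun j => (P j : ℝ) < (x : ℝ) ^ (1 - η))).card : ℝ) +
      (((range N).filter (fun j => (x : ℝ) ^ (1 - η) ≤ P j ∧ Q j)).card : ℝ) := by
    exact_mod_cast g1
  have g3 : c₁ / 2 * N ≤
      (((range N).filter (fun j => (x : ℝ) ^ (1 - η) ≤ P j ∧ Q j)).card : ℝ) := by linarith
  exact g3.trans (le_of_eq (congrArg Nat.cast (card_inst _ _ _ _)))

open Classical in
/-- the shape `v` is frequent at `x` -/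
def FreqV (k : ℕ) (ε c : ℝ) (x : ℕ) (y : Fin k → ℝ) : Prop :=
  ∃ F : Finset (Fin k → ℕ), c * Real.log x ^ k ≤ (F.card : ℝ) ∧ ∀ h ∈ F,
    (∀ i, |(h i : ℝ) - y i * Real.log x| ≤ ε * Real.log x) ∧
    c * (1 + Uni.CT (pat h)) * (x / Real.log x ^ (k + 1)) ≤ cnt x h

open Classical in
theorem shapes_vec (k : ℕ) : ∃ κ : ℝ, 0 < κ ∧ ∃ M₀ : ℕ, ∀ M : ℕ, M₀ ≤ M → ∀ δ ε : ℝ, 0 < δ → 0 < ε →
    ∃ c : ℝ, 0 < c ∧ ∃ x₀ : ℕ, ∀ x : ℕ, x₀ ≤ x →
      κ * (M : ℝ) ^ k ≤ (((box k M).filter (fun v => FreqV k ε c x (fun i => δ * v i))).card : ℝ) := by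
  obtain ⟨κ, hκ, M₀, hmain⟩ := shapes_idx k
  refine ⟨κ, hκ, M₀, fun M hM δ ε hδ hε => ?_⟩
  obtain ⟨c₁, hc₁, N₀, hidx⟩ := hmain M hM δ (ε / 2) hδ (half_pos hε)
  obtain ⟨η, hη⟩ : ∃ η : ℝ, η = ε / (2 * (δ * (M + 1))) := ⟨_, rfl⟩
  have hη0 : 0 < η := by rw [hη]; positivity
  obtain ⟨c, hc, M', x₀, hvec⟩ := vec_pow k c₁ η hc₁ hη0
  have hpi : ∀ᶠ x : ℕ in atTop, N₀ ≤ Nat.primeCounting x - k := by
    have h1 : Tendsto (fun x : ℕ => Nat.primeCounting x - k) atTop atTop := by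
      have h2 := Nat.tendsto_primeCounting
      exact (tendsto_sub_atTop_nat k).comp h2
    exact h1.eventually_ge_atTop N₀
  obtain ⟨x₁, hx₁⟩ := eventually_atTop.1 hpi
  refine ⟨c, hc, max (max x₀ x₁) 1, fun x hx => ?_⟩
  have hx0 : x₀ ≤ x := ((le_max_left _ _).trans (le_max_left _ _)).trans hx
  have hx1' : x₁ ≤ x := ((le_max_right _ _).trans (le_max_left _ _)).trans hx
  have hx1 : 1 ≤ x := le_trans (le_max_right _ _) hx
  have hxR : (1 : ℝ) ≤ x := by exact_mod_cast hx1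
  have hL : 0 ≤ Real.log (x : ℝ) := Real.log_nonneg hxR
  refine (hidx (Nat.primeCounting x - k) (hx₁ x hx1')).trans ?_
  apply Nat.cast_le.2
  apply card_le_card
  intro v hv
  unfold GS at hv
  obtain ⟨hv1, hv2⟩ := mem_filter_inst.1 hv
  refine mem_filter_inst.2 ⟨hv1, ?_⟩
  rw [mem_box] at hv1
  have h1 := hvec x hx0 (Qsh δ (ε / 2) v)
    (fun h => ∀ i, |(h i : ℝ) - δ * v i * Real.log x| ≤ ε * Real.log x) (by
      intro j hj1 hj2 hj3 i
      have h5 : P (j + i) ≤ P (j + i + 1) := P_strictMono.monotone (by omega)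
      have h6 : ((P (j + i + 1) - P (j + i) : ℕ) : ℝ) = gp' (j + i) := by
        rw [Nat.cast_sub h5]
        rfl
      show |((P (j + i + 1) - P (j + i) : ℕ) : ℝ) - δ * v i * Real.log x| ≤ ε * Real.log x
      rw [h6]
      have h7 := hj3 i
      have h8 : Pool.Agent.H361R2.PP.P j = P j := rfl
      rw [h8] at h7
      obtain ⟨Lp, hLp⟩ : ∃ Lp : ℝ, Lp = Real.log (P j : ℝ) := ⟨_, rfl⟩
      rw [← hLp] at h7
      have hp0 : (0 : ℝ) < P j := lt_of_lt_of_le (by positivity) hj1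
      have h9 : Lp ≤ Real.log x := by
        rw [hLp]
        apply Real.log_le_log hp0
        have h10 : P j ≤ x := (P_strictMono.monotone (by omega : j ≤ j + k)).trans hj2
        exact_mod_cast h10
      have h10 : (1 - η) * Real.log x ≤ Lp := by
        rw [hLp, ← Real.log_rpow (by linarith)]
        exact Real.log_le_log (by positivity) hj1
      have hvM : (v i : ℝ) ≤ M + 1 := by
        have : (v i : ℝ) ≤ M := by exact_mod_cast (hv1 i).2
        linarith
      have h11 : |δ * v i * Lp - δ * v i * Real.log x| ≤ ε / 2 * Real.log x := by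
        rw [← mul_sub, abs_mul, abs_of_nonneg (by positivity), abs_sub_comm,
          abs_of_nonneg (by linarith)]
        calc δ * v i * (Real.log x - Lp) ≤ δ * (M + 1) * (η * Real.log x) := by
              apply mul_le_mul _ (by linarith) (by linarith) (by positivity)
              exact mul_le_mul_of_nonneg_left hvM hδ.le
          _ = ε / 2 * Real.log x := by rw [hη]; field_simp
      calc |gp' (j + i) - δ * v i * Real.log x| =
          |(gp' (j + i) - δ * v i * Lp) + (δ * v i * Lp - δ * v i * Real.log x)| := by ring_nf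
        _ ≤ |gp' (j + i) - δ * v i * Lp| + |δ * v i * Lp - δ * v i * Real.log x| := abs_add_le _ _
        _ ≤ ε / 2 * Lp + ε / 2 * Real.log x := add_le_add h7 h11
        _ ≤ ε / 2 * Real.log x + ε / 2 * Real.log x :=
            add_le_add (mul_le_mul_of_nonneg_left h9 (by linarith)) le_rfl
        _ = ε * Real.log x := by ring) (by
      refine hv2.trans (le_of_eq ?_)
      exact congrArg Nat.cast (card_inst _ _ _ _))
  unfold FreqV
  refine ⟨_, h1, fun h hh => ?_⟩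
  obtain ⟨_, h2, h3⟩ := mem_filter_inst.1 hh
  exact ⟨h2, h3⟩

end Pool.Agent.E8helper24.PG
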